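import Mathlib
import Pool.Agent.P.MP_0cf9ad_an.Defs

-- part Pool.Agent.P.MP_0cf9ad_an.Series
section

/-!
Two-variable series of theta type: convergence and smoothness.
-/

set_option autoImplicit false

open Metric Filter Topology Set

namespace Pool.Agent.P.MP_0cf9ad_an

/-- A normally convergent series of holomorphic functions is continuously differentiable. -/
theorem cd_tsum {E : Type} [NormedAddCommGroup E] [NormedSpace ℂ E] {ι : Type} (f : ι → E → ℂ)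
    (x0 : E) {δ : ℝ} (hδ : 0 < δ) (u : ι → ℝ) (hu : Summable u)
    (hd : ∀ i, ∀ x ∈ ball x0 (2 * δ), ContDiffAt ℂ 1 (f i) x)
    (hb : ∀ i, ∀ x ∈ ball x0 (2 * δ), ‖f i x‖ ≤ u i) :
    ContDiffAt ℂ 1 (fun x => ∑' i, f i x) x0 := by
  have hsub : ball x0 δ ⊆ ball x0 (2 * δ) := ball_subset_ball (by linarith)
  have h0 : ∀ i, 0 ≤ u i := fun i => (norm_nonneg _).trans (hb i x0 (mem_ball_self (by linarith)))
  have hD : ∀ i, ∀ x ∈ ball x0 (2 * δ), DifferentiableAt ℂ (f i) x := fun i x hx =>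
    (hd i x hx).differentiableAt one_ne_zero
  have hf' : ∀ i, ∀ x ∈ ball x0 δ, ‖fderiv ℂ (f i) x‖ ≤ u i / δ := by
    intro i x hx
    refine ContinuousLinearMap.opNorm_le_bound' _ (div_nonneg (h0 i) hδ.le) fun v hv => ?_
    have hv' : 0 < ‖v‖ := lt_of_le_of_ne (norm_nonneg _) (Ne.symm hv)
    have hmem : ∀ s ∈ closedBall (0 : ℂ) (δ / ‖v‖), x + s • v ∈ ball x0 (2 * δ) := by
      intro s hs
      rw [mem_closedBall, dist_zero_right, le_div_iff₀ hv'] at hs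
      rw [mem_ball, dist_eq_norm] at hx ⊢
      have : x + s • v - x0 = (x - x0) + s • v := by abel
      rw [this]
      have h1 := norm_add_le (x - x0) (s • v)
      rw [norm_smul] at h1
      linarith
    have hg : ∀ s ∈ closedBall (0 : ℂ) (δ / ‖v‖), DifferentiableAt ℂ (fun s : ℂ => f i (x + s • v)) s :=
      fun s hs => (hD i _ (hmem s hs)).comp s (by fun_prop)
    have hder : HasDerivAt (fun s : ℂ => f i (x + s • v)) (fderiv ℂ (f i) x v) 0 := by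
      have h1 : HasDerivAt (fun s : ℂ => x + s • v) v 0 := by
        simpa using ((hasDerivAt_id (0 : ℂ)).smul_const v).const_add x
      have h2 : HasFDerivAt (f i) (fderiv ℂ (f i) x) (x + (0 : ℂ) • v) := by
        simpa using (hD i x (hsub hx)).hasFDerivAt
      exact h2.comp_hasDerivAt (0 : ℂ) h1
    have := Complex.norm_deriv_le_of_forall_mem_sphere_norm_le (c := 0) (R := δ / ‖v‖) (C := u i)
      (f := fun s : ℂ => f i (x + s • v)) (div_pos hδ hv')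
      (DifferentiableOn.diffContOnCl (by
        rw [closure_ball _ (div_pos hδ hv').ne']
        exact fun s hs => (hg s hs).differentiableWithinAt))
      (fun s hs => hb i _ (hmem s (sphere_subset_closedBall hs)))
    rw [hder.deriv] at this
    calc _ ≤ u i / (δ / ‖v‖) := this
      _ = u i / δ * ‖v‖ := by field_simp
  have hu' : Summable fun i => u i / δ := hu.div_const δ
  rw [contDiffAt_one_iff]
  refine ⟨fun x => ∑' i, fderiv ℂ (f i) x, ball x0 δ, ball_mem_nhds _ hδ, ?_, fun x hx => ?_⟩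
  · refine continuousOn_tsum (fun i x hx => ?_) hu' hf'
    exact ((hd i x (hsub hx)).continuousAt_fderiv one_ne_zero).continuousWithinAt
  · exact hasFDerivAt_tsum_of_isPreconnected hu' isOpen_ball (convex_ball _ _).isPreconnected
      (fun i y hy => (hD i y (hsub hy)).hasFDerivAt) hf' (mem_ball_self hδ)
      (Summable.of_norm_bounded hu fun i => hb i x0 (mem_ball_self (by linarith))) hx

/-- quadratic growth of an exponent function -/
def Grow (e : ℤ → ℕ) : Prop := ∀ n : ℤ, n ^ 2 ≤ 2 * e n + |n| + 2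

theorem summable_half : Summable fun n : ℤ => (1 / 2 : ℝ) ^ n.natAbs := by
  refine Summable.of_nat_of_neg ?_ ?_ <;> simpa using summable_geometric_two

theorem summable_bound {e : ℤ → ℕ} (he : Grow e) {ρ R : ℝ} (h0 : 0 ≤ ρ) (h1 : ρ < 1) (hR : 0 ≤ R) :
    Summable fun n : ℤ => ρ ^ e n * R ^ n.natAbs := by
  obtain ⟨M, hM⟩ : ∃ M : ℕ, ρ ^ M * R ≤ 1 / 2 := by
    have := (tendsto_pow_atTop_nhds_zero_of_lt_one h0 h1).mul_const R
    rw [zero_mul] at this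
    exact (this.eventually (ge_mem_nhds (by norm_num))).exists
  refine Summable.of_norm_bounded_eventually summable_half ?_
  have hfin : {n : ℤ | n.natAbs < 2 * M + 3}.Finite := by
    refine (Set.finite_Ioo (-(2 * M + 3 : ℤ)) (2 * M + 3)).subset fun n hn => ?_
    simp only [mem_ofPred_eq] at hn
    constructor <;> omega
  filter_upwards [hfin.compl_mem_cofinite] with n hn
  simp only [mem_compl_iff, mem_ofPred_eq, not_lt] at hn
  have h2 : M * n.natAbs ≤ e n := by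
    have h3 := he n
    have h4 : (n.natAbs : ℤ) = |n| := Int.natCast_natAbs n
    have h5 : n ^ 2 = |n| ^ 2 := (sq_abs n).symm
    have h6 : (2 * M + 3 : ℤ) ≤ |n| := by rw [← h4]; exact_mod_cast hn
    have h7 : (M : ℤ) * |n| ≤ e n := by nlinarith
    rw [← h4] at h7
    exact_mod_cast h7
  rw [Real.norm_of_nonneg (by positivity)]
  calc ρ ^ e n * R ^ n.natAbs ≤ ρ ^ (M * n.natAbs) * R ^ n.natAbs := by
        gcongr ?_ * _
        exact pow_le_pow_of_le_one h0 h1.le h2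
    _ = (ρ ^ M * R) ^ n.natAbs := by rw [mul_pow, pow_mul]
    _ ≤ (1 / 2) ^ n.natAbs := by gcongr

theorem norm_zpow_le {y : ℂ} {R : ℝ} (h1 : ‖y‖ ≤ R) (h2 : ‖y⁻¹‖ ≤ R) (n : ℤ) :
    ‖y ^ n‖ ≤ R ^ n.natAbs := by
  rcases Int.eq_nat_or_neg n with ⟨k, rfl | rfl⟩
  · rw [zpow_natCast, norm_pow, Int.natAbs_natCast]; gcongr
  · rw [zpow_neg, zpow_natCast, ← inv_pow, norm_pow, Int.natAbs_neg, Int.natAbs_natCast]; gcongr

/-- the general series -/
noncomputable def S (a : ℤ → ℂ) (e : ℤ → ℕ) (t y : ℂ) : ℂ := ∑' n : ℤ, a n * t ^ e n * y ^ n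

theorem term_le {a : ℤ → ℂ} (ha : ∀ n, ‖a n‖ ≤ 1) (e : ℤ → ℕ) {t y : ℂ} {ρ R : ℝ} (ht : ‖t‖ ≤ ρ)
    (h1 : ‖y‖ ≤ R) (h2 : ‖y⁻¹‖ ≤ R) (n : ℤ) :
    ‖a n * t ^ e n * y ^ n‖ ≤ ρ ^ e n * R ^ n.natAbs := by
  have h0 : 0 ≤ ρ := (norm_nonneg _).trans ht
  rw [norm_mul, norm_mul, norm_pow]
  have h3 := norm_zpow_le h1 h2 n
  have h4 := ha n
  calc ‖a n‖ * ‖t‖ ^ e n * ‖y ^ n‖ ≤ 1 * ρ ^ e n * R ^ n.natAbs := by gcongr
    _ = _ := by ring

theorem summable_norm_term {a : ℤ → ℂ} (ha : ∀ n, ‖a n‖ ≤ 1) {e : ℤ → ℕ} (he : Grow e) {t : ℂ}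
    (ht : ‖t‖ < 1) (y : ℂ) : Summable fun n : ℤ => ‖a n * t ^ e n * y ^ n‖ :=
  Summable.of_nonneg_of_le (fun _ => norm_nonneg _)
    (term_le ha e le_rfl (le_max_left _ _) (le_max_right _ _))
    (summable_bound he (norm_nonneg _) ht ((norm_nonneg _).trans (le_max_left _ _)))

theorem hasSum_S {a : ℤ → ℂ} (ha : ∀ n, ‖a n‖ ≤ 1) {e : ℤ → ℕ} (he : Grow e) {t : ℂ}
    (ht : ‖t‖ < 1) (y : ℂ) : HasSum (fun n : ℤ => a n * t ^ e n * y ^ n) (S a e t y) :=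
  (summable_norm_term ha he ht y).of_norm.hasSum

theorem cd_S {a : ℤ → ℂ} (ha : ∀ n, ‖a n‖ ≤ 1) {e : ℤ → ℕ} (he : Grow e) {t y : ℂ}
    (ht : ‖t‖ < 1) (hy : y ≠ 0) : ContDiffAt ℂ 1 (fun p : ℂ × ℂ => S a e p.1 p.2) (t, y) := by
  have hy' : 0 < ‖y‖ := norm_pos_iff.2 hy
  set δ : ℝ := min ((1 - ‖t‖) / 4) (‖y‖ / 4) with hδ
  have hδ0 : 0 < δ := lt_min (by linarith) (by linarith)
  have hδ1 : δ ≤ (1 - ‖t‖) / 4 := min_le_left _ _
  have hδ2 : δ ≤ ‖y‖ / 4 := min_le_right _ _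
  have key : ∀ p ∈ ball (t, y) (2 * δ), ‖p.1‖ ≤ (1 + ‖t‖) / 2 ∧ ‖p.2‖ ≤ 2 * ‖y‖ ∧
      ‖y‖ / 2 ≤ ‖p.2‖ := by
    intro p hp
    rw [mem_ball, Prod.dist_eq, max_lt_iff, dist_eq_norm, dist_eq_norm] at hp
    have h1 := abs_norm_sub_norm_le p.1 t
    have h2 := abs_norm_sub_norm_le p.2 y
    rw [abs_le] at h1 h2
    simp only at hp
    refine ⟨by linarith [hp.1], by linarith [hp.2], by linarith [hp.2]⟩
  refine cd_tsum (fun n (p : ℂ × ℂ) => a n * p.1 ^ e n * p.2 ^ n) (t, y) hδ0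
    (fun n => ((1 + ‖t‖) / 2) ^ e n * (max (2 * ‖y‖) (2 / ‖y‖)) ^ n.natAbs)
    (summable_bound he (by positivity) (by linarith) (by positivity)) (fun n p hp => ?_)
    (fun n p hp => ?_)
  · have h : p.2 ≠ 0 := norm_pos_iff.1 (by linarith [(key p hp).2.2])
    have h1 : ContDiffAt ℂ 1 (fun q : ℂ × ℂ => q.2 ^ n) p := by
      rcases Int.eq_nat_or_neg n with ⟨k, rfl | rfl⟩
      · simp only [zpow_natCast]; fun_prop
      · simp only [zpow_neg, zpow_natCast]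
        exact ContDiffAt.inv (by fun_prop) (pow_ne_zero _ h)
    exact ContDiffAt.mul (by fun_prop) h1
  · obtain ⟨h1, h2, h3⟩ := key p hp
    refine term_le ha e h1 (h2.trans (le_max_left _ _)) (le_trans ?_ (le_max_right _ _)) n
    rw [norm_inv, inv_eq_one_div, div_le_div_iff₀ (by linarith) hy']
    linarith

/-- composition form -/
theorem cd_S' {E : Type} [NormedAddCommGroup E] [NormedSpace ℂ E] {a : ℤ → ℂ} (ha : ∀ n, ‖a n‖ ≤ 1)
    {e : ℤ → ℕ} (he : Grow e) {T Y : E → ℂ} {x : E} (hT : ContDiffAt ℂ 1 T x)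
    (hY : ContDiffAt ℂ 1 Y x) (ht : ‖T x‖ < 1) (hy : Y x ≠ 0) :
    ContDiffAt ℂ 1 (fun p => S a e (T p) (Y p)) x :=
  ContDiffAt.comp (g := fun p : ℂ × ℂ => S a e p.1 p.2) (f := fun p => (T p, Y p)) x
    (cd_S ha he ht hy) (hT.prodMk hY)

end Pool.Agent.P.MP_0cf9ad_an
end

-- part Pool.Agent.P.MP_0cf9ad_an.Theta
section

/-!
Theta series: functional equations and the addition formula.
-/

set_option autoImplicit false

open Metric Filter Topology Set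

namespace Pool.Agent.P.MP_0cf9ad_an

def tri (n : ℤ) : ℕ := (n * (n - 1) / 2).toNat
def eP (n : ℤ) : ℕ := (n * (n - 1)).toNat
def eQ (n : ℤ) : ℕ := (n * n).toNat

theorem mul_pred_nonneg (n : ℤ) : 0 ≤ n * (n - 1) := by
  rcases le_or_gt n 0 with h | h
  · exact mul_nonneg_of_nonpos_of_nonpos h (by omega)
  · exact mul_nonneg h.le (by omega)

theorem tri_cast (n : ℤ) : 2 * (tri n : ℤ) = n * (n - 1) := by
  have h1 := mul_pred_nonneg n
  have h2 : Even (n * (n - 1)) := Int.even_mul_pred_self n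
  obtain ⟨k, hk⟩ := h2
  unfold tri
  omega

theorem eP_cast (n : ℤ) : (eP n : ℤ) = n * (n - 1) := Int.toNat_of_nonneg (mul_pred_nonneg n)
theorem eQ_cast (n : ℤ) : (eQ n : ℤ) = n * n := Int.toNat_of_nonneg (mul_self_nonneg n)

theorem grow_tri : Grow tri := fun n => by
  have := tri_cast n; have := le_abs_self n; nlinarith
theorem grow_eP' : Grow fun n => eP n - 1 := fun n => by
  have h1 := eP_cast n; have := le_abs_self n; have h3 := mul_pred_nonneg n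
  have : (eP n : ℤ) ≤ ((eP n - 1 : ℕ) : ℤ) + 1 := by omega
  nlinarith
theorem grow_eQ' : Grow fun n => eQ n - 1 := fun n => by
  have h1 := eQ_cast n; have := abs_nonneg n; have h3 := mul_self_nonneg n
  have : (eQ n : ℤ) ≤ ((eQ n - 1 : ℕ) : ℤ) + 1 := by omega
  nlinarith
theorem grow_eP : Grow eP := fun n => by
  have h1 := eP_cast n; have := le_abs_self n; have h3 := mul_pred_nonneg n
  nlinarith
theorem grow_eQ : Grow eQ := fun n => by
  have h1 := eQ_cast n; have := abs_nonneg n; have h3 := mul_self_nonneg n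
  nlinarith

theorem hasSum_of_eq {ι : Type} {f g : ι → ℂ} {a : ℂ} (h : HasSum f a) (hfg : ∀ n, g n = f n) :
    HasSum g a := by
  rw [show g = f from funext hfg]; exact h

theorem one_le (n : ℤ) : ‖(fun _ : ℤ => (1 : ℂ)) n‖ ≤ 1 := by simp

noncomputable def TT (t w : ℂ) : ℂ := S (fun _ => 1) tri t w
noncomputable def PP (t y : ℂ) : ℂ := S (fun _ => 1) eP t y
noncomputable def QQ (t y : ℂ) : ℂ := S (fun _ => 1) eQ t y
noncomputable def PR (t y : ℂ) : ℂ :=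
  S (fun n => if n = 0 ∨ n = 1 then 0 else 1) (fun n => eP n - 1) t y
noncomputable def QR (t y : ℂ) : ℂ := S (fun n => if n = 0 then 0 else 1) (fun n => eQ n - 1) t y

theorem hasSum_TT {t : ℂ} (ht : ‖t‖ < 1) (w : ℂ) :
    HasSum (fun n : ℤ => t ^ tri n * w ^ n) (TT t w) := by
  simpa [TT] using hasSum_S one_le grow_tri ht w
theorem hasSum_PP {t : ℂ} (ht : ‖t‖ < 1) (w : ℂ) :
    HasSum (fun n : ℤ => t ^ eP n * w ^ n) (PP t w) := by
  simpa [PP] using hasSum_S one_le grow_eP ht w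
theorem hasSum_QQ {t : ℂ} (ht : ‖t‖ < 1) (w : ℂ) :
    HasSum (fun n : ℤ => t ^ eQ n * w ^ n) (QQ t w) := by
  simpa [QQ] using hasSum_S one_le grow_eQ ht w

theorem aP_le (n : ℤ) : ‖(fun n : ℤ => if n = 0 ∨ n = 1 then (0 : ℂ) else 1) n‖ ≤ 1 := by
  dsimp only; split_ifs <;> simp
theorem aQ_le (n : ℤ) : ‖(fun n : ℤ => if n = 0 then (0 : ℂ) else 1) n‖ ≤ 1 := by
  dsimp only; split_ifs <;> simp

theorem PP_eq {t : ℂ} (ht : ‖t‖ < 1) (y : ℂ) : PP t y = 1 + y + t * PR t y := by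
  refine (hasSum_PP ht y).unique ?_
  have h := ((hasSum_ite_eq (0 : ℤ) (1 : ℂ)).add (hasSum_ite_eq (1 : ℤ) y)).add
    ((hasSum_S aP_le grow_eP' ht y).mul_left t)
  refine hasSum_of_eq h fun n => ?_
  by_cases h0 : n = 0
  · subst h0; simp [eP]
  by_cases h1 : n = 1
  · subst h1; simp [eP]
  have h2 : eP n = (eP n - 1) + 1 := by
    have h3 := eP_cast n
    have : 0 < n * (n - 1) := by
      rcases le_or_gt n 0 with h | h
      · exact mul_pos_of_neg_of_neg (by omega) (by omega)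
      · exact mul_pos h (by omega)
    omega
  simp only [h0, h1, if_false, or_self]
  conv_lhs => rw [h2]
  ring

theorem QQ_eq {t : ℂ} (ht : ‖t‖ < 1) (y : ℂ) : QQ t y = 1 + t * QR t y := by
  refine (hasSum_QQ ht y).unique ?_
  have h := (hasSum_ite_eq (0 : ℤ) (1 : ℂ)).add ((hasSum_S aQ_le grow_eQ' ht y).mul_left t)
  refine hasSum_of_eq h fun n => ?_
  by_cases h0 : n = 0
  · subst h0; simp [eQ]
  have h2 : eQ n = (eQ n - 1) + 1 := by
    have h3 := eQ_cast n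
    have : 0 < n * n := mul_self_pos.2 h0
    omega
  simp only [h0, if_false]
  conv_lhs => rw [h2]
  ring

theorem pow_eq_of_cast {t : ℂ} (ht : t ≠ 0) {a b : ℕ} {n : ℤ} (h : (a : ℤ) + n = b) :
    t ^ a * t ^ n = t ^ b := by
  rw [← zpow_natCast, ← zpow_natCast, ← zpow_add₀ ht, h]

theorem TT_shift {t w : ℂ} (ht : ‖t‖ < 1) (h0 : t ≠ 0) (hw : w ≠ 0) :
    TT t (t * w) * w = TT t w := by
  refine ((hasSum_TT ht (t * w)).mul_right w).unique ?_
  have h := (Equiv.addRight (1 : ℤ)).hasSum_iff.2 (hasSum_TT ht w)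
  refine hasSum_of_eq h fun n => ?_
  simp only [Function.comp, Equiv.coe_addRight]
  have : (tri n : ℤ) + n = tri (n + 1) := by
    have h1 := tri_cast n; have h2 := tri_cast (n + 1); nlinarith
  rw [← pow_eq_of_cast h0 this, mul_zpow, zpow_add_one₀ hw]; ring

theorem TT_inv {t w : ℂ} (ht : ‖t‖ < 1) (hw : w ≠ 0) : TT t w⁻¹ * w = TT t w := by
  refine ((hasSum_TT ht w⁻¹).mul_right w).unique ?_
  have h := (Equiv.subLeft (1 : ℤ)).hasSum_iff.2 (hasSum_TT ht w)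
  refine hasSum_of_eq h fun n => ?_
  simp only [Function.comp, Equiv.subLeft_apply]
  have : tri n = tri (1 - n) := by
    have h1 := tri_cast n; have h2 := tri_cast (1 - n)
    have : (tri n : ℤ) = tri (1 - n) := by nlinarith
    exact_mod_cast this
  rw [← this, zpow_sub₀ hw, inv_zpow, zpow_one]
  field_simp

theorem PP_shift {t y : ℂ} (ht : ‖t‖ < 1) (h0 : t ≠ 0) (hy : y ≠ 0) :
    PP t (t ^ 2 * y) * y = PP t y := by
  refine ((hasSum_PP ht (t ^ 2 * y)).mul_right y).unique ?_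
  have h := (Equiv.addRight (1 : ℤ)).hasSum_iff.2 (hasSum_PP ht y)
  refine hasSum_of_eq h fun n => ?_
  simp only [Function.comp, Equiv.coe_addRight]
  have : (eP n : ℤ) + (n + n) = eP (n + 1) := by
    have h1 := eP_cast n; have h2 := eP_cast (n + 1); nlinarith
  rw [← pow_eq_of_cast h0 this, mul_zpow, zpow_add_one₀ hy, sq, mul_zpow, zpow_add₀ h0]; ring

theorem QQ_shift {t y : ℂ} (ht : ‖t‖ < 1) (h0 : t ≠ 0) (hy : y ≠ 0) :
    QQ t (t ^ 2 * y) * (t * y) = QQ t y := by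
  refine ((hasSum_QQ ht (t ^ 2 * y)).mul_right (t * y)).unique ?_
  have h := (Equiv.addRight (1 : ℤ)).hasSum_iff.2 (hasSum_QQ ht y)
  refine hasSum_of_eq h fun n => ?_
  simp only [Function.comp, Equiv.coe_addRight]
  have : (eQ n : ℤ) + (n + n + 1) = eQ (n + 1) := by
    have h1 := eQ_cast n; have h2 := eQ_cast (n + 1); nlinarith
  rw [← pow_eq_of_cast h0 this, mul_zpow, zpow_add_one₀ hy, sq, mul_zpow, zpow_add_one₀ h0,
    zpow_add₀ h0]; ring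

/-- splitting of the lattice by parity -/
def split : (ℤ × ℤ) ⊕ (ℤ × ℤ) → ℤ × ℤ
  | .inl p => (p.1 - p.2, p.1 + p.2)
  | .inr p => (p.1 - p.2 + 1, p.1 + p.2)

theorem split_bij : Function.Bijective split := by
  constructor
  · rintro (⟨a, b⟩ | ⟨a, b⟩) (⟨c, d⟩ | ⟨c, d⟩) h <;>
      simp only [split, Prod.mk.injEq, Sum.inl.injEq, Sum.inr.injEq, reduceCtorEq] at h ⊢ <;> omega
  · rintro ⟨m, n⟩
    rcases Int.even_or_odd' (m + n) with ⟨k, h | h⟩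
    · exact ⟨.inl (k, n - k), by simp only [split, Prod.mk.injEq]; omega⟩
    · exact ⟨.inr (k, n - k), by simp only [split, Prod.mk.injEq]; omega⟩

theorem hasSum_prod {e e' : ℤ → ℕ} (he : Grow e) (he' : Grow e') {t : ℂ} (ht : ‖t‖ < 1) (y y' : ℂ) :
    HasSum (fun p : ℤ × ℤ => (t ^ e p.1 * y ^ p.1) * (t ^ e' p.2 * y' ^ p.2))
      (S (fun _ => 1) e t y * S (fun _ => 1) e' t y') := by
  have h1 := summable_norm_term one_le he ht y
  have h2 := summable_norm_term one_le he' ht y'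
  have h3 := (summable_mul_of_summable_norm h1 h2).hasSum
  rw [← tsum_mul_tsum_of_summable_norm h1 h2] at h3
  simpa [S] using h3

theorem TT_mul {t α β : ℂ} (ht : ‖t‖ < 1) (hα : α ≠ 0) (hβ : β ≠ 0) :
    TT t α * TT t β = PP t (α * β) * QQ t (β / α) + α * (QQ t (α * β) * PP t (β / α)) := by
  have h := (Equiv.ofBijective split split_bij).hasSum_iff.2 (hasSum_prod grow_tri grow_tri ht α β)
  refine h.unique (HasSum.sum ?_ ?_)
  · refine hasSum_of_eq (hasSum_prod grow_eP grow_eQ ht (α * β) (β / α)) fun ⟨a, b⟩ => ?_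
    simp only [Function.comp, Equiv.ofBijective_apply, split]
    have h1 : tri (a - b) + tri (a + b) = eP a + eQ b := by
      have h1 := tri_cast (a - b); have h2 := tri_cast (a + b)
      have h3 := eP_cast a; have h4 := eQ_cast b
      have : (tri (a - b) : ℤ) + tri (a + b) = eP a + eQ b := by nlinarith
      exact_mod_cast this
    have h2 : t ^ tri (a - b) * t ^ tri (a + b) = t ^ eP a * t ^ eQ b := by
      rw [← pow_add, ← pow_add, h1]
    rw [zpow_sub₀ hα, zpow_add₀ hβ, mul_zpow, div_zpow]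
    linear_combination (α ^ a / α ^ b * (β ^ a * β ^ b)) * h2
  · refine hasSum_of_eq ((hasSum_prod grow_eQ grow_eP ht (α * β) (β / α)).mul_left α)
      fun ⟨a, b⟩ => ?_
    simp only [Function.comp, Equiv.ofBijective_apply, split]
    have h1 : tri (a - b + 1) + tri (a + b) = eQ a + eP b := by
      have h1 := tri_cast (a - b + 1); have h2 := tri_cast (a + b)
      have h3 := eP_cast b; have h4 := eQ_cast a
      have : (tri (a - b + 1) : ℤ) + tri (a + b) = eQ a + eP b := by nlinarith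
      exact_mod_cast this
    have h2 : t ^ tri (a - b + 1) * t ^ tri (a + b) = t ^ eQ a * t ^ eP b := by
      rw [← pow_add, ← pow_add, h1]
    rw [zpow_add_one₀ hα, zpow_sub₀ hα, zpow_add₀ hβ, mul_zpow, div_zpow]
    linear_combination (α ^ a / α ^ b * α * (β ^ a * β ^ b)) * h2

/-- the odd theta function of degree one -/
noncomputable def th (t z : ℂ) : ℂ := TT t (-z)
/-- the even theta function of degree two -/
noncomputable def Pv (c t x : ℂ) : ℂ := PP t (c * x ^ 2)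
/-- the odd theta function of degree two -/
noncomputable def Qv (c t x : ℂ) : ℂ := x * QQ t (c * x ^ 2)

theorem th_shift {t z : ℂ} (ht : ‖t‖ < 1) (h0 : t ≠ 0) (hz : z ≠ 0) :
    th t (t * z) * (-z) = th t z := by
  have := TT_shift ht h0 (neg_ne_zero.2 hz)
  simpa [th] using this

theorem th_inv {t z : ℂ} (ht : ‖t‖ < 1) (hz : z ≠ 0) : th t z⁻¹ * (-z) = th t z := by
  have := TT_inv ht (neg_ne_zero.2 hz)
  rw [inv_neg] at this
  exact this

theorem P_shift {c t x : ℂ} (ht : ‖t‖ < 1) (h0 : t ≠ 0) (hc : c ≠ 0) (hx : x ≠ 0) :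
    Pv c t (t * x) * (c * x ^ 2) = Pv c t x := by
  have := PP_shift ht h0 (y := c * x ^ 2) (by positivity)
  rw [Pv, Pv, ← this]; congr 2; ring

theorem Q_shift {c t x : ℂ} (ht : ‖t‖ < 1) (h0 : t ≠ 0) (hc : c ≠ 0) (hx : x ≠ 0) :
    Qv c t (t * x) * (c * x ^ 2) = Qv c t x := by
  have := QQ_shift ht h0 (y := c * x ^ 2) (by positivity)
  have h : c * (t * x) ^ 2 = t ^ 2 * (c * x ^ 2) := by ring
  rw [Qv, Qv, ← this, h]; ring

/-- the addition formula -/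
theorem W_eq {c t x y : ℂ} (ht : ‖t‖ < 1) (hc : c ≠ 0) (hx : x ≠ 0) (hy : y ≠ 0) :
    Pv c t x * Qv c t y - Qv c t x * Pv c t y = y * (th t (x / y) * th t (c * x * y)) := by
  have h := TT_mul ht (α := -(x / y)) (β := -(c * x * y)) (by simp [hx, hy]) (by simp [hx, hy, hc])
  have h1 : -(x / y) * -(c * x * y) = c * x ^ 2 := by field_simp
  have h2 : -(c * x * y) / -(x / y) = c * y ^ 2 := by field_simp
  rw [h1, h2] at h
  rw [th, th, h, Pv, Pv, Qv, Qv]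
  field_simp
  ring

section smooth
variable {E : Type} [NormedAddCommGroup E] [NormedSpace ℂ E] {T Y : E → ℂ} {x : E}

theorem cd_th (hT : ContDiffAt ℂ 1 T x) (hY : ContDiffAt ℂ 1 Y x) (ht : ‖T x‖ < 1)
    (hy : Y x ≠ 0) : ContDiffAt ℂ 1 (fun p => th (T p) (Y p)) x :=
  cd_S' one_le grow_tri hT hY.neg ht (neg_ne_zero.2 hy)

theorem cd_P {c : ℂ} (hc : c ≠ 0) (hT : ContDiffAt ℂ 1 T x) (hY : ContDiffAt ℂ 1 Y x)
    (ht : ‖T x‖ < 1) (hy : Y x ≠ 0) : ContDiffAt ℂ 1 (fun p => Pv c (T p) (Y p)) x :=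
  cd_S' one_le grow_eP hT (Y := fun p => c * Y p ^ 2) (by fun_prop) ht (by positivity)

theorem cd_Q {c : ℂ} (hc : c ≠ 0) (hT : ContDiffAt ℂ 1 T x) (hY : ContDiffAt ℂ 1 Y x)
    (ht : ‖T x‖ < 1) (hy : Y x ≠ 0) : ContDiffAt ℂ 1 (fun p => Qv c (T p) (Y p)) x :=
  hY.mul (cd_S' one_le grow_eQ hT (Y := fun p => c * Y p ^ 2) (by fun_prop) ht (by positivity))

theorem cd_PR (hT : ContDiffAt ℂ 1 T x) (hY : ContDiffAt ℂ 1 Y x) (ht : ‖T x‖ < 1)
    (hy : Y x ≠ 0) : ContDiffAt ℂ 1 (fun p => PR (T p) (Y p)) x :=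
  cd_S' aP_le grow_eP' hT hY ht hy

theorem cd_QR (hT : ContDiffAt ℂ 1 T x) (hY : ContDiffAt ℂ 1 Y x) (ht : ‖T x‖ < 1)
    (hy : Y x ≠ 0) : ContDiffAt ℂ 1 (fun p => QR (T p) (Y p)) x :=
  cd_S' aQ_le grow_eQ' hT hY ht hy

end smooth

end Pool.Agent.P.MP_0cf9ad_an
end

-- part Pool.Agent.P.MP_0cf9ad_an.Zeros
section

/-!
The zeros of the theta function for a small nome.
-/

set_option autoImplicit false

open Metric Filter Topology Set

namespace Pool.Agent.P.MP_0cf9ad_an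

theorem diff_le {z w : ℂ} (h : z * w = 1) {R : ℝ} (hR : 1 ≤ R) (hz : ‖z‖ ≤ R) (hw : ‖w‖ ≤ R)
    (n : ℕ) : ‖w ^ n - z ^ (n + 1)‖ ≤ (2 * n + 1) * R ^ n * ‖1 - z‖ := by
  induction n with
  | zero => simp
  | succ n ih =>
    have h1 : w ^ (n + 1) - z ^ (n + 1 + 1) =
        (w ^ n - z ^ (n + 1)) + w ^ (n + 1) * (1 - z) + z ^ (n + 1) * (1 - z) := by
      linear_combination (w ^ n) * h
    have h2 : ‖w ^ (n + 1) * (1 - z)‖ ≤ R ^ (n + 1) * ‖1 - z‖ := by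
      rw [norm_mul, norm_pow]; gcongr
    have h3 : ‖z ^ (n + 1) * (1 - z)‖ ≤ R ^ (n + 1) * ‖1 - z‖ := by
      rw [norm_mul, norm_pow]; gcongr
    have h4 : (2 * n + 1) * R ^ n * ‖1 - z‖ ≤ (2 * n + 1) * R ^ (n + 1) * ‖1 - z‖ := by
      gcongr; omega
    rw [h1]
    refine (norm_add₃_le).trans ?_
    push_cast
    linarith

theorem coef_le {ρ : ℝ} (h0 : 0 < ρ) (h1 : ρ ≤ 1 / 10) (n : ℕ) :
    (ρ ^ 2) ^ tri (n + 1) * ((2 * n + 1) * ρ⁻¹ ^ n) ≤ (3 / 10) ^ n := by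
  have h2 : 2 * tri (n + 1) = n * n + n := by
    have := tri_cast (n + 1)
    have h : (2 * tri (n + 1) : ℤ) = n * n + n := by linarith
    exact_mod_cast h
  have h3 : (2 * n + 1 : ℝ) ≤ 3 ^ n := by
    have := one_add_mul_le_pow (a := (2 : ℝ)) (by norm_num) n
    norm_num at this; linarith
  have h4 : ρ ^ (n * n) ≤ (1 / 10) ^ n :=
    (pow_le_pow_of_le_one h0.le (by linarith) (Nat.le_mul_self n)).trans (by gcongr)
  rw [← pow_mul, h2, pow_add]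
  calc ρ ^ (n * n) * ρ ^ n * ((2 * n + 1) * ρ⁻¹ ^ n) = ρ ^ (n * n) * (2 * n + 1) := by
        rw [inv_pow]; field_simp
    _ ≤ (1 / 10) ^ n * 3 ^ n := by gcongr
    _ = (3 / 10) ^ n := by rw [← mul_pow]; norm_num

theorem th_bound {t z : ℂ} {ρ : ℝ} (h0 : 0 < ρ) (h1 : ρ ≤ 1 / 10) (ht : ‖t‖ ≤ ρ ^ 2)
    (hz : ‖z‖ ≤ ρ⁻¹) (hz' : ρ ≤ ‖z‖) : ‖th t z - (1 - z)‖ ≤ ‖1 - z‖ / 2 := by
  have ht1 : ‖t‖ < 1 := by nlinarith
  have hz0 : z ≠ 0 := norm_pos_iff.1 (by linarith)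
  have hR : 1 ≤ ρ⁻¹ := by rw [one_le_inv₀ h0]; linarith
  have hw : ‖z⁻¹‖ ≤ ρ⁻¹ := by rw [norm_inv]; exact inv_anti₀ h0 hz'
  have h2 := ((Equiv.neg ℤ).hasSum_iff.2 (hasSum_TT ht1 (-z))).nat_add_neg_add_one
  have h3 : HasSum (fun n : ℕ => t ^ tri (n + 1) * ((-1) ^ n * (z⁻¹ ^ n - z ^ (n + 1))))
      (th t z) := by
    refine hasSum_of_eq h2 fun n => ?_
    simp only [Function.comp, Equiv.neg_apply, neg_neg]
    have : tri (-n) = tri (n + 1) := by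
      have h1 := tri_cast (-n); have h2 := tri_cast (n + 1)
      have : (tri (-n) : ℤ) = tri (n + 1) := by nlinarith
      exact_mod_cast this
    rw [this, zpow_neg, zpow_add_one₀ (neg_ne_zero.2 hz0), zpow_natCast, ← inv_pow, inv_neg,
      neg_pow z⁻¹, neg_pow z]
    ring
  have h4 := (hasSum_nat_add_iff' 1).2 h3
  simp only [Finset.range_one, Finset.sum_singleton] at h4
  have h5 : tri (((0 : ℕ) : ℤ) + 1) = 0 := by simp [tri]
  rw [h5] at h4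
  simp only [pow_zero, one_mul, zero_add, pow_one] at h4
  have h6 : HasSum (fun n : ℕ => (3 / 10 : ℝ) ^ n * (3 / 10 * ‖1 - z‖))
      ((1 - 3 / 10)⁻¹ * (3 / 10 * ‖1 - z‖)) :=
    (hasSum_geometric_of_lt_one (by norm_num) (by norm_num)).mul_right _
  have h7 := HasSum.norm_le_of_bounded h4 h6 fun n => by
    have h8 := diff_le (mul_inv_cancel₀ hz0) hR hz hw (n + 1)
    have h9 := coef_le h0 h1 (n + 1)
    rw [norm_mul, norm_mul, norm_pow, norm_pow, norm_neg, norm_one, one_pow, one_mul]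
    calc _ ≤ (ρ ^ 2) ^ tri (((n + 1 : ℕ) : ℤ) + 1) *
          ((2 * (n + 1 : ℕ) + 1) * ρ⁻¹ ^ (n + 1) * ‖1 - z‖) := by gcongr
      _ = (ρ ^ 2) ^ tri (((n + 1 : ℕ) : ℤ) + 1) *
          ((2 * (n + 1 : ℕ) + 1) * ρ⁻¹ ^ (n + 1)) * ‖1 - z‖ := by ring
      _ ≤ (3 / 10) ^ (n + 1) * ‖1 - z‖ := by gcongr
      _ = _ := by ring
  have := norm_nonneg (1 - z)
  linarith

theorem th_lower {t z : ℂ} {ρ : ℝ} (h0 : 0 < ρ) (h1 : ρ ≤ 1 / 10) (ht : ‖t‖ ≤ ρ ^ 2)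
    (hz : ‖z‖ ≤ ρ⁻¹) (hz' : ρ ≤ ‖z‖) : ‖1 - z‖ / 2 ≤ ‖th t z‖ := by
  have h := th_bound h0 h1 ht hz hz'
  have h2 := abs_norm_sub_norm_le (th t z) (1 - z)
  rw [abs_le] at h2
  linarith [h2.1]

theorem th_one {t : ℂ} (ht : ‖t‖ < 1 / 100) : th t 1 = 0 := by
  have h := th_bound (t := t) (z := 1) (ρ := 1 / 10) (by norm_num) le_rfl (by linarith)
    (by norm_num) (by norm_num)
  simpa using h

theorem th_zpow {t z : ℂ} (ht : ‖t‖ < 1) (h0 : t ≠ 0) (hz : z ≠ 0) (j : ℤ) :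
    th t (t ^ j * z) = 0 ↔ th t z = 0 := by
  have key : ∀ w : ℂ, w ≠ 0 → (th t (t * w) = 0 ↔ th t w = 0) := fun w hw => by
    rw [← th_shift ht h0 hw]; simp [hw]
  induction j using Int.induction_on with
  | zero => simp
  | succ i ih =>
    refine Iff.trans ?_ ih
    rw [← key (t ^ (i : ℤ) * z) (mul_ne_zero (zpow_ne_zero _ h0) hz), zpow_add_one₀ h0,
      show t ^ (i : ℤ) * t * z = t * (t ^ (i : ℤ) * z) by ring]
  | pred i ih =>
    refine Iff.trans ?_ ih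
    rw [← key (t ^ (-(i : ℤ) - 1) * z) (mul_ne_zero (zpow_ne_zero _ h0) hz), zpow_sub_one₀ h0,
      show t * (t ^ (-(i : ℤ)) * t⁻¹ * z) = t ^ (-(i : ℤ)) * z by field_simp]

theorem th_zero {t z : ℂ} (ht : ‖t‖ < 1 / 100) (hz : z ≠ 0) (h : th t z = 0) :
    ∃ j : ℤ, z = t ^ j := by
  have hz' : 0 < ‖z‖ := norm_pos_iff.2 hz
  by_cases h0 : t = 0
  · refine ⟨0, ?_⟩
    have h1 := th_lower (t := t) (z := z) (ρ := min (1 / 10) (min ‖z‖ ‖z‖⁻¹)) (by positivity)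
      (min_le_left _ _) (by rw [h0, norm_zero]; positivity)
      (by rw [le_inv_comm₀ hz' (by positivity)]; exact (min_le_right _ _).trans (min_le_right _ _))
      ((min_le_right _ _).trans (min_le_left _ _))
    rw [h, norm_zero] at h1
    have : ‖1 - z‖ = 0 := le_antisymm (by linarith) (norm_nonneg _)
    rw [norm_eq_zero, sub_eq_zero] at this
    simp [← this]
  · have ht0 : 0 < ‖t‖ := norm_pos_iff.2 h0
    set ρ := √‖t‖ with hρ
    have hρ0 : 0 < ρ := Real.sqrt_pos.2 ht0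
    have hρ2 : ρ ^ 2 = ‖t‖ := Real.sq_sqrt ht0.le
    have hρ1 : ρ ≤ 1 / 10 := by nlinarith
    obtain ⟨j, h1, h2⟩ := exists_mem_Ioc_zpow (x := ‖z‖ / ρ) (y := ‖t‖⁻¹) (by positivity)
      (by rw [one_lt_inv₀ ht0]; linarith)
    have hj : 0 < ‖t‖ ^ j := zpow_pos ht0 j
    rw [inv_zpow, inv_lt_iff_one_lt_mul₀ hj] at h1
    rw [zpow_add_one₀ (inv_ne_zero ht0.ne'), inv_zpow] at h2
    have hn : ‖t ^ j * z‖ = ‖t‖ ^ j * ‖z‖ := by rw [norm_mul, norm_zpow]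
    have h3 := th_lower (t := t) (z := t ^ j * z) hρ0 hρ1 hρ2.ge
      (by
        rw [hn]
        calc ‖t‖ ^ j * ‖z‖ = ‖t‖ ^ j * (‖z‖ / ρ) * ρ := by field_simp
          _ ≤ ‖t‖ ^ j * ((‖t‖ ^ j)⁻¹ * ‖t‖⁻¹) * ρ := by gcongr
          _ = ρ⁻¹ := by rw [← hρ2]; field_simp)
      (by
        rw [hn]
        calc ρ = 1 * ρ := by ring
          _ ≤ ‖z‖ / ρ * ‖t‖ ^ j * ρ := by gcongr
          _ = _ := by field_simp)
    rw [(th_zpow (by linarith) h0 hz j).2 h, norm_zero] at h3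
    have : ‖1 - t ^ j * z‖ = 0 := le_antisymm (by linarith) (norm_nonneg _)
    rw [norm_eq_zero, sub_eq_zero] at this
    refine ⟨-j, ?_⟩
    rw [zpow_neg]
    exact eq_inv_of_mul_eq_one_right this.symm

/-- the modulus of an integral power of a small number -/
theorem zpow_cases {t : ℂ} (ht : ‖t‖ < 1 / 100) (j : ℤ) :
    t ^ j = 1 ∨ t ^ j = t ∨ ‖t ^ j‖ < 1 / 10000 ∨ 100 < ‖t ^ j‖ := by
  have h0 := norm_nonneg t
  rcases Int.eq_nat_or_neg j with ⟨k, rfl | rfl⟩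
  · rcases k with _ | _ | k
    · simp
    · simp
    · refine Or.inr (Or.inr (Or.inl ?_))
      rw [zpow_natCast, norm_pow, pow_succ, pow_succ]
      have : ‖t‖ ^ k ≤ 1 := pow_le_one₀ h0 (by linarith)
      have h2 : ‖t‖ * ‖t‖ < 1 / 10000 := by nlinarith
      nlinarith [mul_nonneg h0 h0]
  · rcases k with _ | k
    · simp
    by_cases h : t = 0
    · refine Or.inr (Or.inl ?_)
      rw [h, zero_zpow _ (by omega)]
    refine Or.inr (Or.inr (Or.inr ?_))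
    have h1 : 0 < ‖t‖ := norm_pos_iff.2 h
    rw [zpow_neg, zpow_natCast, norm_inv, norm_pow, lt_inv_comm₀ (by norm_num) (by positivity),
      pow_succ]
    have : ‖t‖ ^ k ≤ 1 := pow_le_one₀ h0 (by linarith)
    nlinarith

theorem th_ne {t z : ℂ} (ht : ‖t‖ < 1 / 100) (h1 : 1 / 10000 ≤ ‖z‖) (h2 : ‖z‖ ≤ 100) (h3 : z ≠ 1)
    (h4 : z ≠ t) : th t z ≠ 0 := by
  intro h
  obtain ⟨j, hj⟩ := th_zero ht (norm_pos_iff.1 (by linarith)) h
  rcases zpow_cases ht j with h | h | h | h <;> rw [← hj] at h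
  · exact h3 h
  · exact h4 h
  · linarith
  · linarith

theorem th_ne' {t z : ℂ} (ht : ‖t‖ < 1 / 100) (h1 : 1 / 100 ≤ ‖z‖) (h2 : ‖z‖ ≤ 100) (h3 : z ≠ 1) :
    th t z ≠ 0 :=
  th_ne ht (by linarith) h2 h3 (by rintro rfl; linarith)

theorem th_deriv {t : ℂ} (ht : ‖t‖ < 1 / 100) : ∃ D : ℂ, D ≠ 0 ∧ HasDerivAt (th t) D 1 := by
  have h1 : DifferentiableAt ℂ (th t) 1 :=
    (cd_th (T := fun _ : ℂ => t) (Y := fun z => z) (x := 1) contDiffAt_const contDiffAt_id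
      (by linarith) one_ne_zero).differentiableAt one_ne_zero
  refine ⟨deriv (th t) 1, fun h => ?_, h1.hasDerivAt⟩
  have h2 := hasDerivAt_iff_tendsto_slope.1 h1.hasDerivAt
  rw [h] at h2
  have h3 : ∀ᶠ z in 𝓝[≠] (1 : ℂ), ‖slope (th t) 1 z‖ < 1 / 2 := by
    have := h2.norm
    rw [norm_zero] at this
    exact this.eventually (gt_mem_nhds (by norm_num))
  have h4 : ∀ᶠ z in 𝓝[≠] (1 : ℂ), ‖z - 1‖ < 1 / 2 := by
    refine nhdsWithin_le_nhds ?_
    have : Continuous fun z : ℂ => ‖z - 1‖ := by fun_prop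
    exact (this.tendsto 1).eventually (gt_mem_nhds (by simp))
  obtain ⟨z, hz1, hz2, hz3⟩ := (h3.and (h4.and self_mem_nhdsWithin)).exists
  have h5 := abs_norm_sub_norm_le z 1
  rw [abs_le, norm_one] at h5
  have h6 := th_lower (t := t) (z := z) (ρ := 1 / 10) (by norm_num) le_rfl (by linarith)
    (by norm_num; linarith [h5.2]) (by linarith [h5.1])
  have h7 : 0 < ‖z - 1‖ := norm_pos_iff.2 (sub_ne_zero.2 hz3)
  rw [slope_def_field, th_one ht, sub_zero, norm_div, div_lt_iff₀ h7] at hz1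
  rw [norm_sub_rev] at h6
  linarith

end Pool.Agent.P.MP_0cf9ad_an
end

-- part Pool.Agent.P.MP_0cf9ad_an.Biquad
section

/-!
The biquadratic relation between two systems of theta functions of degree two.
-/

set_option autoImplicit false

open Metric Filter Topology Set

namespace Pool.Agent.P.MP_0cf9ad_an

/-- the twisting constant -/
noncomputable def r : ℂ := 1 / 1000

theorem r_ne : r ≠ 0 := by norm_num [r]
theorem norm_r : ‖r‖ = 1 / 1000 := by norm_num [r]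

/-- the linear form vanishing on the theta vector of `a` -/
noncomputable def ell (c t a v0 v1 : ℂ) : ℂ := v1 * Qv c t a - v0 * Pv c t a

noncomputable def W (c t x y : ℂ) : ℂ := ell c t y (Qv c t x) (Pv c t x)

theorem W_th {c t x y : ℂ} (ht : ‖t‖ < 1) (hc : c ≠ 0) (hx : x ≠ 0) (hy : y ≠ 0) :
    W c t x y = y * (th t (x / y) * th t (c * x * y)) := W_eq ht hc hx hy

noncomputable def AA (c d t x v0 v1 : ℂ) : ℂ :=
  d ^ 2 * x ^ 2 * (ell c t x v0 v1 * ell c t (d * x)⁻¹ v0 v1)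

theorem AA_symm {c d t x y : ℂ} (ht : ‖t‖ < 1) (hc : c ≠ 0) (hd : d ≠ 0) (hx : x ≠ 0)
    (hy : y ≠ 0) :
    AA c d t x (Qv c t y) (Pv c t y) = AA d c t y (Qv d t x) (Pv d t x) := by
  have h1 := W_th ht hc hy hx
  have h2 := W_th ht hc hy (inv_ne_zero (mul_ne_zero hd hx))
  have h3 := W_th ht hd hx hy
  have h4 := W_th ht hd hx (inv_ne_zero (mul_ne_zero hc hy))
  have h5 := th_inv ht (div_ne_zero hx hy)
  have h6 := th_inv ht (z := d * x * (c * y)⁻¹) (by positivity)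
  rw [show y / (d * x)⁻¹ = d * x * y by field_simp] at h2
  rw [show x / (c * y)⁻¹ = c * y * x by field_simp] at h4
  rw [inv_div] at h5
  rw [show (d * x * (c * y)⁻¹)⁻¹ = c * y * (d * x)⁻¹ by field_simp] at h6
  unfold W at h1 h2 h3 h4
  rw [AA, AA, h1, h2, h3, h4, ← h5, ← h6]
  field_simp

noncomputable def kap (t : ℂ) : ℂ := W r t 10 20 * W r t 20 30 * W r t 30 10

noncomputable def BB (t v0 v1 w0 w1 : ℂ) : ℂ :=
  -(AA 1 r t 10 v0 v1 * W r t 20 30 * ell r t 20 w0 w1 * ell r t 30 w0 w1 +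
    AA 1 r t 20 v0 v1 * W r t 30 10 * ell r t 30 w0 w1 * ell r t 10 w0 w1 +
    AA 1 r t 30 v0 v1 * W r t 10 20 * ell r t 10 w0 w1 * ell r t 20 w0 w1)

theorem W_ne {c t x y : ℂ} (ht : ‖t‖ < 1 / 100) (hc : c ≠ 0) (hx : x ≠ 0) (hy : y ≠ 0)
    (h1 : 1 / 100 ≤ ‖x / y‖) (h2 : ‖x / y‖ ≤ 100) (h3 : x / y ≠ 1)
    (h4 : 1 / 100 ≤ ‖c * x * y‖) (h5 : ‖c * x * y‖ ≤ 100) (h6 : c * x * y ≠ 1) : W c t x y ≠ 0 := by
  rw [W_th (by linarith) hc hx hy]
  exact mul_ne_zero hy (mul_ne_zero (th_ne' ht h1 h2 h3) (th_ne' ht h4 h5 h6))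

theorem Wr_ne {t : ℂ} (ht : ‖t‖ < 1 / 100) :
    W r t 10 20 ≠ 0 ∧ W r t 20 30 ≠ 0 ∧ W r t 30 10 ≠ 0 := by
  refine ⟨?_, ?_, ?_⟩ <;> apply W_ne ht r_ne <;> norm_num [r]

theorem W1_ne {t : ℂ} (ht : ‖t‖ < 1 / 100) :
    W 1 t 2 3 ≠ 0 ∧ W 1 t 3 4 ≠ 0 ∧ W 1 t 4 2 ≠ 0 := by
  refine ⟨?_, ?_, ?_⟩ <;> apply W_ne ht one_ne_zero <;> norm_num

theorem kap_ne {t : ℂ} (ht : ‖t‖ < 1 / 100) : kap t ≠ 0 :=
  mul_ne_zero (mul_ne_zero (Wr_ne ht).1 (Wr_ne ht).2.1) (Wr_ne ht).2.2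

theorem BB_left {t y : ℂ} (ht : ‖t‖ < 1) (hy : y ≠ 0) (l w0 w1 : ℂ) :
    BB t (l * Qv 1 t y) (l * Pv 1 t y) w0 w1 = l ^ 2 * kap t * AA r 1 t y w0 w1 := by
  have h : ∀ x : ℂ, x ≠ 0 → AA 1 r t x (l * Qv 1 t y) (l * Pv 1 t y) =
      l ^ 2 * AA r 1 t y (Qv r t x) (Pv r t x) := fun x hx => by
    rw [← AA_symm ht one_ne_zero r_ne hx hy]; simp only [AA, ell]; ring
  rw [BB, h 10 (by norm_num), h 20 (by norm_num), h 30 (by norm_num)]
  simp only [kap, W, AA, ell]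
  ring

theorem quad_zero {q : ℂ → ℂ → ℂ} {α β γ : ℂ}
    (hq : ∀ a b, q a b = α * a ^ 2 + β * (a * b) + γ * b ^ 2) {a0 a1 b0 b1 c0 c1 : ℂ}
    (h1 : a1 * b0 - a0 * b1 ≠ 0) (h2 : b1 * c0 - b0 * c1 ≠ 0) (h3 : c1 * a0 - c0 * a1 ≠ 0)
    (ha : q a0 a1 = 0) (hb : q b0 b1 = 0) (hc : q c0 c1 = 0) (v0 v1 : ℂ) : q v0 v1 = 0 := by
  apply mul_left_cancel₀ (mul_ne_zero (mul_ne_zero h1 h2) h3)
  rw [hq] at ha hb hc ⊢
  linear_combination (-((b1 * c0 - b0 * c1) * (v1 * b0 - v0 * b1) * (v1 * c0 - v0 * c1))) * ha +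
    (-((c1 * a0 - c0 * a1) * (v1 * c0 - v0 * c1) * (v1 * a0 - v0 * a1))) * hb +
    (-((a1 * b0 - a0 * b1) * (v1 * a0 - v0 * a1) * (v1 * b0 - v0 * b1))) * hc

theorem BB_right {t x : ℂ} (ht : ‖t‖ < 1 / 100) (hx : x ≠ 0) (m v0 v1 : ℂ) :
    BB t v0 v1 (m * Qv r t x) (m * Pv r t x) = m ^ 2 * kap t * AA 1 r t x v0 v1 := by
  set q : ℂ → ℂ → ℂ := fun a b =>
    BB t a b (m * Qv r t x) (m * Pv r t x) - m ^ 2 * kap t * AA 1 r t x a b with hq
  have h : ∀ y : ℂ, y ≠ 0 → q (Qv 1 t y) (Pv 1 t y) = 0 := fun y hy => by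
    have h1 := BB_left (by linarith : ‖t‖ < 1) hy 1 (m * Qv r t x) (m * Pv r t x)
    rw [one_mul, one_mul] at h1
    simp only [hq]
    rw [h1, AA_symm (by linarith) one_ne_zero r_ne hx hy]
    simp only [AA, ell]; ring
  obtain ⟨h1, h2, h3⟩ := W1_ne ht
  have := quad_zero (q := q) (α := q 1 0) (β := q 1 1 - q 1 0 - q 0 1) (γ := q 0 1)
    (fun a b => by
      simp only [hq, BB, AA]
      generalize ell r t 10 (m * Qv r t x) (m * Pv r t x) = e1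
      generalize ell r t 20 (m * Qv r t x) (m * Pv r t x) = e2
      generalize ell r t 30 (m * Qv r t x) (m * Pv r t x) = e3
      simp only [ell]; ring)
    h1 h2 h3 (h 2 (by norm_num)) (h 3 (by norm_num)) (h 4 (by norm_num)) v0 v1
  exact sub_eq_zero.1 this

theorem BB_diag {t x : ℂ} (ht : ‖t‖ < 1) (hx : x ≠ 0) (l m : ℂ) :
    BB t (l * Qv 1 t x) (l * Pv 1 t x) (m * Qv r t x) (m * Pv r t x) = 0 := by
  rw [BB_left ht hx]; simp only [AA, ell]; ring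

/-- the theta vector never vanishes -/
theorem vec_ne {c t x : ℂ} (ht : ‖t‖ < 1 / 100) (hc : c = 1 ∨ c = r) (hx : x ≠ 0) :
    Qv c t x ≠ 0 ∨ Pv c t x ≠ 0 := by
  by_contra h
  simp only [not_or, not_not] at h
  have hc0 : c ≠ 0 := by rcases hc with rfl | rfl; exacts [one_ne_zero, r_ne]
  have key : ∀ y : ℂ, y ≠ 0 → th t (x / y) = 0 ∨ th t (c * x * y) = 0 := fun y hy => by
    have := W_th (by linarith : ‖t‖ < 1) hc0 hx hy
    rw [W, ell, h.1, h.2] at this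
    simpa [hy] using this.symm
  have h2 : ∀ s : ℂ, s ≠ 0 → s ≠ 1 → 1 / 100 ≤ ‖s‖ → ‖s‖ ≤ 100 →
      th t (c * x * x * s⁻¹) = 0 := fun s h0 h1 h2 h3 => by
    rcases key (x / s) (div_ne_zero hx h0) with h | h
    · rw [show x / (x / s) = s by field_simp] at h
      exact absurd h (th_ne' ht h2 h3 h1)
    · rw [← h]; congr 1; ring
  obtain ⟨i, hi⟩ := th_zero ht (by simp [hc0, hx]) (h2 2 (by norm_num) (by norm_num) (by norm_num)
    (by norm_num))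
  obtain ⟨j, hj⟩ := th_zero ht (by simp [hc0, hx]) (h2 4 (by norm_num) (by norm_num) (by norm_num)
    (by norm_num))
  have ht0 : t ^ j ≠ 0 := by rw [← hj]; simp [hc0, hx]
  by_cases h0 : t = 0
  · have hj0 : j = 0 := by by_contra hne; rw [h0, zero_zpow _ hne] at ht0; exact ht0 rfl
    have hi0 : i = 0 := by
      by_contra hne
      rw [h0, zero_zpow _ hne] at hi
      exact absurd hi (by simp [hc0, hx])
    rw [hj0, zpow_zero] at hj
    rw [hi0, zpow_zero] at hi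
    have : (1 : ℂ) = 2 := by linear_combination -hi + 2 * hj
    norm_num at this
  · have h3 : t ^ (i - j) = 2 := by
      rw [zpow_sub₀ h0, ← hi, ← hj]; field_simp; norm_num
    rcases zpow_cases ht (i - j) with h | h | h | h <;> rw [h3] at h
    · norm_num at h
    · rw [← h] at ht; norm_num at ht
    · norm_num at h
    · norm_num at h

section smooth
variable {E : Type} [NormedAddCommGroup E] [NormedSpace ℂ E] {T Y A B C D : E → ℂ} {x : E}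

theorem cd_ell {c : ℂ} (hc : c ≠ 0) (hT : ContDiffAt ℂ 1 T x) (hY : ContDiffAt ℂ 1 Y x)
    (hA : ContDiffAt ℂ 1 A x) (hB : ContDiffAt ℂ 1 B x) (ht : ‖T x‖ < 1) (hy : Y x ≠ 0) :
    ContDiffAt ℂ 1 (fun p => ell c (T p) (Y p) (A p) (B p)) x :=
  (hB.mul (cd_Q hc hT hY ht hy)).sub (hA.mul (cd_P hc hT hY ht hy))

theorem cd_BB (hT : ContDiffAt ℂ 1 T x) (hA : ContDiffAt ℂ 1 A x) (hB : ContDiffAt ℂ 1 B x)
    (hC : ContDiffAt ℂ 1 C x) (hD : ContDiffAt ℂ 1 D x) (ht : ‖T x‖ < 1) :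
    ContDiffAt ℂ 1 (fun p => BB (T p) (A p) (B p) (C p) (D p)) x := by
  have h1 : ∀ a : ℂ, a ≠ 0 → ContDiffAt ℂ 1 (fun p => AA 1 r (T p) a (A p) (B p)) x := fun a ha =>
    contDiffAt_const.mul ((cd_ell one_ne_zero hT contDiffAt_const hA hB ht ha).mul
      (cd_ell one_ne_zero hT contDiffAt_const hA hB ht (inv_ne_zero (mul_ne_zero r_ne ha))))
  have h2 : ∀ a : ℂ, a ≠ 0 → ContDiffAt ℂ 1 (fun p => ell r (T p) a (C p) (D p)) x := fun a ha =>
    cd_ell r_ne hT contDiffAt_const hC hD ht ha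
  have h3 : ∀ a b : ℂ, a ≠ 0 → b ≠ 0 → ContDiffAt ℂ 1 (fun p => W r (T p) a b) x :=
    fun a b ha hb => cd_ell r_ne hT contDiffAt_const (cd_Q r_ne hT contDiffAt_const ht ha)
      (cd_P r_ne hT contDiffAt_const ht ha) ht hb
  have a1 : (10 : ℂ) ≠ 0 := by norm_num
  have a2 : (20 : ℂ) ≠ 0 := by norm_num
  have a3 : (30 : ℂ) ≠ 0 := by norm_num
  exact ((((((h1 _ a1).mul (h3 _ _ a2 a3)).mul (h2 _ a2)).mul (h2 _ a3)).add
    ((((h1 _ a2).mul (h3 _ _ a3 a1)).mul (h2 _ a3)).mul (h2 _ a1))).add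
    ((((h1 _ a3).mul (h3 _ _ a1 a2)).mul (h2 _ a1)).mul (h2 _ a2))).neg

end smooth

end Pool.Agent.P.MP_0cf9ad_an
end

-- part Pool.Agent.P.MP_0cf9ad_an.Section
section

/-!
Local holomorphic inverses of the theta parametrisation.
-/

set_option autoImplicit false

open Metric Filter Topology Set

namespace Pool.Agent.P.MP_0cf9ad_an

variable {E : Type} [NormedAddCommGroup E] [NormedSpace ℂ E]

theorem ne_of_or {c : ℂ} (hc : c = 1 ∨ c = r) : c ≠ 0 := by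
  rcases hc with rfl | rfl; exacts [one_ne_zero, r_ne]

theorem ratio {c : ℂ} (hc : c = 1 ∨ c = r) {T X A B : E → ℂ} {p0 : E} {l : ℂ}
    (hT : ContDiffAt ℂ 1 T p0) (hX : ContDiffAt ℂ 1 X p0) (hA : ContDiffAt ℂ 1 A p0)
    (hB : ContDiffAt ℂ 1 B p0) (ht : ‖T p0‖ < 1 / 100) (hx : X p0 ≠ 0)
    (h1 : A p0 = l * Qv c (T p0) (X p0)) (h2 : B p0 = l * Pv c (T p0) (X p0)) :
    ∃ L : E → ℂ, ContDiffAt ℂ 1 L p0 ∧ L p0 = l ∧ ∀ᶠ p in 𝓝 p0,
      ell c (T p) (X p) (A p) (B p) = 0 →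
        A p = L p * Qv c (T p) (X p) ∧ B p = L p * Pv c (T p) (X p) := by
  have hQ := cd_Q (ne_of_or hc) hT hX (by linarith) hx
  have hP := cd_P (ne_of_or hc) hT hX (by linarith) hx
  rcases vec_ne ht hc hx with h | h
  · refine ⟨fun p => A p / Qv c (T p) (X p), hA.div hQ h, by simp [h1, h], ?_⟩
    filter_upwards [hQ.continuousAt.eventually_ne h] with p hp h0
    rw [ell] at h0
    refine ⟨by field_simp, ?_⟩
    field_simp
    linear_combination h0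
  · refine ⟨fun p => B p / Pv c (T p) (X p), hB.div hP h, by simp [h2, h], ?_⟩
    filter_upwards [hP.continuousAt.eventually_ne h] with p hp h0
    rw [ell] at h0
    refine ⟨?_, by field_simp⟩
    field_simp
    linear_combination -h0

theorem solve [CompleteSpace E] {d : ℂ} (hd : d ≠ 0) {T A B : E → ℂ} {p0 : E} {m x : ℂ}
    (hT : ContDiffAt ℂ 1 T p0) (hA : ContDiffAt ℂ 1 A p0) (hB : ContDiffAt ℂ 1 B p0)
    (ht : ‖T p0‖ < 1 / 100) (hx : x ≠ 0) (hm : m ≠ 0)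
    (h1 : A p0 = m * Qv d (T p0) x) (h2 : B p0 = m * Pv d (T p0) x)
    (h3 : th (T p0) (d * x * x) ≠ 0) :
    ∃ X : E → ℂ, ContDiffAt ℂ 1 X p0 ∧ X p0 = x ∧
      ∀ᶠ p in 𝓝 p0, ell d (T p) (X p) (A p) (B p) = 0 := by
  set f : E × ℂ → ℂ := fun q => ell d (T q.1) q.2 (A q.1) (B q.1) with hf
  have lift : ∀ {G : E → ℂ}, ContDiffAt ℂ 1 G p0 →
      ContDiffAt ℂ 1 (fun q : E × ℂ => G q.1) (p0, x) := fun {G} hG =>
    ContDiffAt.comp (g := G) (f := fun q : E × ℂ => q.1) (p0, x) hG contDiffAt_fst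
  have cdf : ContDiffAt ℂ 1 f (p0, x) :=
    cd_ell hd (lift hT) contDiffAt_snd (lift hA) (lift hB) (by simp only; linarith) hx
  obtain ⟨D, hD0, hD⟩ := th_deriv ht
  have hG : DifferentiableAt ℂ (fun y => th (T p0) (d * x * y)) x :=
    (cd_th (T := fun _ : ℂ => T p0) (Y := fun y => d * x * y) (x := x) contDiffAt_const
      (by fun_prop) (by linarith) (by positivity)).differentiableAt one_ne_zero
  have e1 : HasDerivAt (fun y => th (T p0) (x / y)) (D * (-x / x ^ 2)) x := by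
    have h4 : HasDerivAt (fun y : ℂ => x / y) (-x / x ^ 2) x := by
      exact ((hasDerivAt_const x x).fun_div (hasDerivAt_id' x) hx).congr_deriv (by simp)
    have h5 : HasDerivAt (th (T p0)) D (x / x) := by rwa [div_self hx]
    exact h5.comp x h4
  have e2 := ((hasDerivAt_id x).mul (e1.mul hG.hasDerivAt)).const_mul m
  have e3 : HasDerivAt (fun y => f (p0, y)) (-(m * D * th (T p0) (d * x * x))) x := by
    refine (e2.congr_of_eventuallyEq ?_).congr_deriv ?_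
    · filter_upwards [continuousAt_id.eventually_ne hx] with y hy
      have := W_th (t := T p0) (y := y) (by linarith) hd hx hy
      simp only [hf, Pi.mul_apply, id]
      rw [← this, h1, h2, W, ell, ell]; ring
    · simp only [Pi.mul_apply, id, div_self hx, th_one ht]
      field_simp
      ring
  have e4 : HasFDerivAt (fun y => f (p0, y))
      (fderiv ℂ f (p0, x) ∘L ContinuousLinearMap.inr ℂ E ℂ) x :=
    (cdf.differentiableAt one_ne_zero).hasFDerivAt.comp x (hasFDerivAt_prodMk_right p0 x)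
  have hne : -(m * D * th (T p0) (d * x * x)) ≠ 0 := by simp [hm, hD0, h3]
  have inv : (fderiv ℂ f (p0, x) ∘L ContinuousLinearMap.inr ℂ E ℂ).IsInvertible :=
    ⟨_, (e3.hasFDerivAt_equiv hne).unique e4⟩
  refine ⟨cdf.implicitFunction one_ne_zero inv, cdf.contDiffAt_implicitFunction one_ne_zero inv,
    cdf.implicitFunction_apply_self one_ne_zero inv, ?_⟩
  filter_upwards [cdf.eventually_apply_implicitFunction one_ne_zero inv] with p hp
  simp only [hf] at hp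
  rw [hp, h1, h2, ell]; ring

theorem sec [CompleteSpace E] {c d : ℂ} (hc : c = 1 ∨ c = r) (hd : d = 1 ∨ d = r)
    {T A0 A1 B0 B1 : E → ℂ} {p0 : E} {l m x : ℂ}
    (hT : ContDiffAt ℂ 1 T p0) (hA0 : ContDiffAt ℂ 1 A0 p0) (hA1 : ContDiffAt ℂ 1 A1 p0)
    (hB0 : ContDiffAt ℂ 1 B0 p0) (hB1 : ContDiffAt ℂ 1 B1 p0)
    (ht : ‖T p0‖ < 1 / 100) (hx : x ≠ 0) (hl : l ≠ 0) (hm : m ≠ 0)
    (a0 : A0 p0 = l * Qv c (T p0) x) (a1 : A1 p0 = l * Pv c (T p0) x)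
    (b0 : B0 p0 = m * Qv d (T p0) x) (b1 : B1 p0 = m * Pv d (T p0) x)
    (h1 : th (T p0) (d * x * x) ≠ 0) (h2 : th (T p0) (c / d) ≠ 0) :
    ∃ X L M : E → ℂ, ContDiffAt ℂ 1 X p0 ∧ ContDiffAt ℂ 1 L p0 ∧ ContDiffAt ℂ 1 M p0 ∧
      X p0 = x ∧ L p0 = l ∧ M p0 = m ∧ ∀ᶠ p in 𝓝 p0,
        (B0 p = M p * Qv d (T p) (X p) ∧ B1 p = M p * Pv d (T p) (X p)) ∧
        (AA c d (T p) (X p) (A0 p) (A1 p) = 0 →
          A0 p = L p * Qv c (T p) (X p) ∧ A1 p = L p * Pv c (T p) (X p)) := by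
  have hc0 := ne_of_or hc
  have hd0 := ne_of_or hd
  obtain ⟨X, hX, hX0, hXe⟩ := solve hd0 hT hB0 hB1 ht hx hm b0 b1 h1
  subst hX0
  obtain ⟨M, hM, hM0, hMe⟩ := ratio hd hT hX hB0 hB1 ht hx b0 b1
  obtain ⟨L, hL, hL0, hLe⟩ := ratio hc hT hX hA0 hA1 ht hx a0 a1
  refine ⟨X, L, M, hX, hL, hM, rfl, hL0, hM0, ?_⟩
  have hdx : d * X p0 ≠ 0 := mul_ne_zero hd0 hx
  have h3 : ContDiffAt ℂ 1 (fun p => ell c (T p) (d * X p)⁻¹ (A0 p) (A1 p)) p0 :=
    cd_ell hc0 hT ((contDiffAt_const.mul hX).inv hdx) hA0 hA1 (by linarith) (inv_ne_zero hdx)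
  have h4 : ell c (T p0) (d * X p0)⁻¹ (A0 p0) (A1 p0) ≠ 0 := by
    have h5 := W_th (t := T p0) (by linarith) hc0 hx (inv_ne_zero hdx)
    rw [show X p0 / (d * X p0)⁻¹ = d * X p0 * X p0 by field_simp,
      show c * X p0 * (d * X p0)⁻¹ = c / d by field_simp] at h5
    have h6 : ell c (T p0) (d * X p0)⁻¹ (A0 p0) (A1 p0) = l * W c (T p0) (X p0) (d * X p0)⁻¹ := by
      rw [a0, a1, W, ell, ell]; ring
    rw [h6, h5]
    exact mul_ne_zero hl (mul_ne_zero (inv_ne_zero hdx) (mul_ne_zero h1 h2))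
  filter_upwards [hXe, hMe, hLe, h3.continuousAt.eventually_ne h4,
    hX.continuousAt.eventually_ne hx] with p e1 e2 e3 e4 e5
  refine ⟨e2 e1, fun h => e3 ?_⟩
  rw [AA] at h
  exact (mul_eq_zero.1 ((mul_eq_zero.1 h).resolve_left (by positivity))).resolve_right e4

end Pool.Agent.P.MP_0cf9ad_an
end

-- part Pool.Agent.P.MP_0cf9ad_an.General
section

/-!
General facts on holomorphic functions and hulls.
-/

set_option autoImplicit false

open Metric Filter Topology Set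

namespace Pool.Agent.P.MP_0cf9ad_an

variable {N : ℕ} {Y K : Set (Fin N → ℂ)} {f : (Fin N → ℂ) → ℂ}

theorem exists_open_diff {F : (Fin N → ℂ) → ℂ} {x : Fin N → ℂ} (h : ContDiffAt ℂ 1 F x) :
    ∀ᶠ y in 𝓝 x, DifferentiableAt ℂ F y :=
  (h.eventually (by simp)).mono fun _ hy => hy.differentiableAt one_ne_zero

theorem hol_of_local (h : ∀ x ∈ Y, ∃ F : (Fin N → ℂ) → ℂ, ContDiffAt ℂ 1 F x ∧
    ∀ᶠ y in 𝓝 x, y ∈ Y → f y = F y) : Hol Y f := by
  intro x hx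
  obtain ⟨F, h1, h2⟩ := h x hx
  obtain ⟨V, hV, hVo, hxV⟩ := _root_.mem_nhds_iff.1 ((exists_open_diff h1).and h2)
  exact ⟨V, hVo, hxV, F, fun y hy => (hV hy).1.differentiableWithinAt,
    fun y hy => (hV hy.2).2 hy.1⟩

theorem hol_of_cd (h : ∀ x ∈ Y, ContDiffAt ℂ 1 f x) : Hol Y f :=
  hol_of_local fun x hx => ⟨f, h x hx, Eventually.of_forall fun _ _ => rfl⟩

theorem hol_coord (i : Fin N) : Hol Y fun p => p i := hol_of_cd fun _ _ => by fun_prop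

theorem Hol.continuousOn (h : Hol Y f) : ContinuousOn f Y := by
  intro x hx
  obtain ⟨V, hV, hxV, F, hF, hfF⟩ := h x hx
  have h1 : ContinuousAt F x := (hF.differentiableAt (hV.mem_nhds hxV)).continuousAt
  refine h1.continuousWithinAt.congr_of_eventuallyEq ?_ (hfF x ⟨hx, hxV⟩)
  filter_upwards [self_mem_nhdsWithin, nhdsWithin_le_nhds (hV.mem_nhds hxV)] with y h2 h3
  exact hfF y ⟨h2, h3⟩

theorem Hol.comp_diff (h : Hol Y f) {g : ℂ → Fin N → ℂ} {z : ℂ} (hg : DifferentiableAt ℂ g z)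
    (hY : ∀ᶠ w in 𝓝 z, g w ∈ Y) : DifferentiableAt ℂ (fun w => f (g w)) z := by
  obtain ⟨V, hV, hxV, F, hF, hfF⟩ := h _ hY.self_of_nhds
  refine ((hF.differentiableAt (hV.mem_nhds hxV)).comp z hg).congr_of_eventuallyEq ?_
  filter_upwards [hY, hg.continuousAt.eventually (hV.mem_nhds hxV)] with w h1 h2
  exact hfF _ ⟨h1, h2⟩

theorem le_sSup_of_mem (hK : K ⊆ Y) (hc : IsCompact K) (h : Hol Y f) {y : Fin N → ℂ} (hy : y ∈ K) :
    ‖f y‖ ≤ sSup ((fun y => ‖f y‖) '' K) :=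
  le_csSup (hc.image_of_continuousOn (h.continuousOn.mono hK).norm).bddAbove ⟨y, hy, rfl⟩

theorem hull_bound (h : Hol Y f) : ∃ C : ℝ, 0 < C ∧ ∀ x ∈ hull Y K, ‖f x‖ ≤ C :=
  ⟨max 1 (sSup ((fun y => ‖f y‖) '' K)), by positivity,
    fun _ hx => (hx.2 f h).trans (le_max_right _ _)⟩

theorem hull_bound_lt (hK : K ⊆ Y) (hc : IsCompact K) (h : Hol Y f) {a : ℝ} (ha : 0 < a)
    (hlt : ∀ y ∈ Y, ‖f y‖ < a) : ∃ C : ℝ, C < a ∧ ∀ x ∈ hull Y K, ‖f x‖ ≤ C := by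
  refine ⟨_, ?_, fun x hx => hx.2 f h⟩
  rcases K.eq_empty_or_nonempty with rfl | hne
  · simpa using ha
  · obtain ⟨y, hy, e⟩ := hc.exists_sSup_image_eq hne (h.continuousOn.mono hK).norm
    rw [e]; exact hlt y (hK hy)

theorem isStein_of_limit (h : ∀ K ⊆ Y, IsCompact K → ∀ (l : Ultrafilter (Fin N → ℂ))
    (p : Fin N → ℂ), hull Y K ∈ l → (l : Filter (Fin N → ℂ)) ≤ 𝓝 p → p ∈ Y) : IsStein Y := by
  refine ⟨fun K hK hc => ?_, fun x _ y _ hxy => ?_⟩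
  · refine Metric.isCompact_of_isClosed_isBounded ?_ ?_
    · refine isClosed_of_closure_subset fun p hp => ?_
      obtain ⟨l, hl, hlp⟩ := mem_closure_iff_ultrafilter.1 hp
      have hpY := h K hK hc l p hl hlp
      refine ⟨hpY, fun f hf => ?_⟩
      have h1 : (l : Filter (Fin N → ℂ)) ≤ 𝓝[Y] p :=
        le_inf hlp (le_principal_iff.2 (mem_of_superset hl fun x hx => hx.1))
      have h2 : Tendsto (fun x => ‖f x‖) l (𝓝 ‖f p‖) :=
        ((hf.continuousOn p hpY).tendsto.mono_left h1).norm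
      exact le_of_tendsto h2 (mem_of_superset hl fun x hx => hx.2 f hf)
    · choose C _ hC using fun i : Fin N => hull_bound (K := K) (hol_coord (Y := Y) i)
      refine (Bornology.IsBounded.pi fun i => isBounded_closedBall (x := (0 : ℂ)) (r := C i)).subset
        fun x hx i _ => ?_
      simpa using hC i x hx
  · obtain ⟨i, hi⟩ := Function.ne_iff.1 hxy
    exact ⟨fun p => p i, hol_coord i, hi⟩

end Pool.Agent.P.MP_0cf9ad_an
end

-- part Pool.Agent.P.MP_0cf9ad_an.Chart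
section

/-!
The space, the parametrisation, its charts and their compatibility.
-/

set_option autoImplicit false

open Metric Filter Topology Set

namespace Pool.Agent.P.MP_0cf9ad_an

abbrev Amb := Fin 6 → ℂ
abbrev Par := Fin 5 → ℂ

noncomputable def Psi (w : Par) : Amb :=
  ![w 0, w 2 * Qv 1 (w 0) (w 1), w 2 * Pv 1 (w 0) (w 1), w 3 * Qv r (w 0) (w 1),
    w 3 * Pv r (w 0) (w 1), w 4]

@[simp] theorem Psi0 (w : Par) : Psi w 0 = w 0 := rfl
@[simp] theorem Psi1 (w : Par) : Psi w 1 = w 2 * Qv 1 (w 0) (w 1) := rfl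
@[simp] theorem Psi2 (w : Par) : Psi w 2 = w 2 * Pv 1 (w 0) (w 1) := rfl
@[simp] theorem Psi3 (w : Par) : Psi w 3 = w 3 * Qv r (w 0) (w 1) := rfl
@[simp] theorem Psi4 (w : Par) : Psi w 4 = w 3 * Pv r (w 0) (w 1) := rfl
@[simp] theorem Psi5 (w : Par) : Psi w 5 = w 4 := rfl

theorem amb_ext {p q : Amb} (h0 : p 0 = q 0) (h1 : p 1 = q 1) (h2 : p 2 = q 2) (h3 : p 3 = q 3)
    (h4 : p 4 = q 4) (h5 : p 5 = q 5) : p = q := by
  funext i; fin_cases i <;> assumption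

theorem par_ext {p q : Par} (h0 : p 0 = q 0) (h1 : p 1 = q 1) (h2 : p 2 = q 2) (h3 : p 3 = q 3)
    (h4 : p 4 = q 4) : p = q := by
  funext i; fin_cases i <;> assumption

noncomputable def hh (p : Amb) : ℂ := r * p 2 * p 3 - p 1 * p 4 + (1 - r) * p 1 ^ 2

noncomputable def Bp (p : Amb) : ℂ := BB (p 0) (p 1) (p 2) (p 3) (p 4)

/-- the ambient Stein space -/
def XX : Set Amb := {p | ‖p 0‖ < 1 / 100 ∧ Bp p = 0 ∧ p 0 * p 5 = hh p}

/-- the parameter domain of the chart number `k` -/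
structure Om (k : ℕ) (w : Par) : Prop where
  t_lt : ‖w 0‖ < 1 / 100
  t_ne : w 0 ≠ r
  x_ne : w 1 ≠ 0
  l_ne : w 2 ≠ 0
  s_lt : ‖r ^ k * w 3 / w 2 - 1‖ < 1 / 2
  eq : w 0 * w 4 = hh (Psi w)

/-- the increasing open subsets -/
def UU (n : ℕ) : Set Amb := {p | ∃ k ≤ n, ∃ w, Om k w ∧ Psi w = p}

theorem Om.m_ne {k : ℕ} {w : Par} (h : Om k w) : w 3 ≠ 0 := by
  intro h0
  have := h.s_lt
  rw [h0] at this
  norm_num at this

theorem Om.t_lt_one {k : ℕ} {w : Par} (h : Om k w) : ‖w 0‖ < 1 := by linarith [h.t_lt]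

theorem Om.mem {k : ℕ} {w : Par} (h : Om k w) : Psi w ∈ XX :=
  ⟨h.t_lt, BB_diag h.t_lt_one h.x_ne _ _, h.eq⟩

def ee (k : ℕ) : ℕ := k * (k - 1)

theorem ee_succ (k : ℕ) : ee (k + 1) = ee k + 2 * k := by
  unfold ee
  rcases k with _ | k
  · simp
  · simp only [Nat.add_sub_cancel]; ring

theorem vec_shift {c t x : ℂ} (ht : ‖t‖ < 1) (h0 : t ≠ 0) (hc : c ≠ 0) (hx : x ≠ 0) (k : ℕ) :
    Qv c t (t ^ k * x) * (c ^ k * (t ^ ee k * x ^ (2 * k))) = Qv c t x ∧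
      Pv c t (t ^ k * x) * (c ^ k * (t ^ ee k * x ^ (2 * k))) = Pv c t x := by
  induction k with
  | zero => simp [ee]
  | succ k ih =>
    have hy : t ^ k * x ≠ 0 := by positivity
    have h1 := Q_shift ht h0 hc hy
    have h2 := P_shift ht h0 hc hy
    rw [show t ^ (k + 1) * x = t * (t ^ k * x) by ring, ee_succ, ← ih.1, ← ih.2, ← h1, ← h2]
    constructor <;> ring

/-- passage from the chart number `k` to the chart number zero -/
noncomputable def sh (k : ℕ) (w : Par) : Par :=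
  ![w 0, w 0 ^ k * w 1, w 2 * (w 0 ^ ee k * w 1 ^ (2 * k)),
    w 3 * (r ^ k * (w 0 ^ ee k * w 1 ^ (2 * k))), w 4]

@[simp] theorem sh0 (k : ℕ) (w : Par) : sh k w 0 = w 0 := rfl
@[simp] theorem sh1 (k : ℕ) (w : Par) : sh k w 1 = w 0 ^ k * w 1 := rfl
@[simp] theorem sh2 (k : ℕ) (w : Par) : sh k w 2 = w 2 * (w 0 ^ ee k * w 1 ^ (2 * k)) := rfl
@[simp] theorem sh3 (k : ℕ) (w : Par) :
    sh k w 3 = w 3 * (r ^ k * (w 0 ^ ee k * w 1 ^ (2 * k))) := rfl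
@[simp] theorem sh4 (k : ℕ) (w : Par) : sh k w 4 = w 4 := rfl

theorem Psi_sh {w : Par} (ht : ‖w 0‖ < 1) (h0 : w 0 ≠ 0) (hx : w 1 ≠ 0) (k : ℕ) :
    Psi (sh k w) = Psi w := by
  obtain ⟨h1, h2⟩ := vec_shift ht h0 one_ne_zero hx k
  obtain ⟨h3, h4⟩ := vec_shift ht h0 r_ne hx k
  refine amb_ext rfl ?_ ?_ ?_ ?_ rfl <;> simp only [Psi1, Psi2, Psi3, Psi4, sh0, sh1, sh2, sh3]
  · rw [← h1]; ring
  · rw [← h2]; ring
  · rw [← h3]; ring
  · rw [← h4]; ring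

theorem sh_ratio {w : Par} (h0 : w 0 ≠ 0) (hx : w 1 ≠ 0) (k : ℕ) :
    sh k w 3 / sh k w 2 = r ^ k * w 3 / w 2 := by
  simp only [sh2, sh3]
  have : w 0 ^ ee k * w 1 ^ (2 * k) ≠ 0 := by positivity
  rw [show w 3 * (r ^ k * (w 0 ^ ee k * w 1 ^ (2 * k))) =
    r ^ k * w 3 * (w 0 ^ ee k * w 1 ^ (2 * k)) by ring, mul_div_mul_right _ _ this]

theorem Om.sh {k : ℕ} {w : Par} (h : Om k w) (h0 : w 0 ≠ 0) : Om 0 (sh k w) where
  t_lt := h.t_lt
  t_ne := h.t_ne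
  x_ne := mul_ne_zero (pow_ne_zero _ h0) h.x_ne
  l_ne := mul_ne_zero h.l_ne (mul_ne_zero (pow_ne_zero _ h0) (pow_ne_zero _ h.x_ne))
  s_lt := by rw [pow_zero, one_mul, sh_ratio h0 h.x_ne]; exact h.s_lt
  eq := by rw [Psi_sh h.t_lt_one h0 h.x_ne]; exact h.eq

theorem Om.unsh {w : Par} (h : Om 0 w) (h0 : w 0 ≠ 0) (k : ℕ) :
    ∃ w', Om k w' ∧ Pool.Agent.P.MP_0cf9ad_an.sh k w' = w ∧ Psi w' = Psi w := by
  have hx := h.x_ne
  have hr := r_ne
  set w' : Par := ![w 0, w 1 / w 0 ^ k, w 2 / (w 0 ^ ee k * (w 1 / w 0 ^ k) ^ (2 * k)),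
    w 3 / (r ^ k * (w 0 ^ ee k * (w 1 / w 0 ^ k) ^ (2 * k))), w 4] with hw'
  have e0 : w' 0 = w 0 := rfl
  have e1 : w' 1 = w 1 / w 0 ^ k := rfl
  have e2 : w' 2 = w 2 / (w 0 ^ ee k * (w 1 / w 0 ^ k) ^ (2 * k)) := rfl
  have e3 : w' 3 = w 3 / (r ^ k * (w 0 ^ ee k * (w 1 / w 0 ^ k) ^ (2 * k))) := rfl
  have hx' : w' 1 ≠ 0 := by rw [e1]; positivity
  have hs : Pool.Agent.P.MP_0cf9ad_an.sh k w' = w := by
    refine par_ext rfl ?_ ?_ ?_ rfl
    · rw [sh1, e0, e1]; field_simp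
    · rw [sh2, e0, e1, e2, div_mul_cancel₀ _ (by positivity)]
    · rw [sh3, e0, e1, e3, div_mul_cancel₀ _ (by positivity)]
  have hP : Psi w' = Psi w := by
    rw [← Psi_sh (w := w') h.t_lt_one h0 hx' k, hs]
  refine ⟨w', ⟨h.t_lt, h.t_ne, hx', ?_, ?_, ?_⟩, hs, hP⟩
  · rw [e2]; have := h.l_ne; positivity
  · rw [← sh_ratio (w := w') h0 hx', hs]; simpa using h.s_lt
  · rw [hP]; exact h.eq

theorem disc_disj {s : ℂ} {j : ℕ} (h1 : ‖s - 1‖ < 1 / 2) (h2 : ‖r ^ j * s - 1‖ < 1 / 2) :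
    j = 0 := by
  by_contra hj
  obtain ⟨i, rfl⟩ := Nat.exists_eq_succ_of_ne_zero hj
  have h3 := abs_norm_sub_norm_le s 1
  have h4 := abs_norm_sub_norm_le (r ^ (i + 1) * s) 1
  rw [abs_le, norm_one] at h3 h4
  rw [norm_mul, norm_pow, norm_r, pow_succ (1 / 1000 : ℝ)] at h4
  rw [Nat.succ_eq_add_one] at h2
  have h5 : (1 / 1000 : ℝ) ^ i ≤ 1 := pow_le_one₀ (by norm_num) (by norm_num)
  have h6 := norm_nonneg s
  nlinarith [h3.2, h4.1]

theorem th_r {t : ℂ} (ht : ‖t‖ < 1 / 100) (h : t ≠ r) : th t r ≠ 0 :=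
  th_ne ht (by rw [norm_r]; norm_num) (by rw [norm_r]; norm_num) (by norm_num [r]) h.symm

theorem th_r_inv {t : ℂ} (ht : ‖t‖ < 1 / 100) (h : t ≠ r) : th t r⁻¹ ≠ 0 := by
  intro h0
  apply th_r ht h
  rw [← th_inv (by linarith) r_ne, h0, zero_mul]

theorem no_common {t z : ℂ} (ht : ‖t‖ < 1 / 100) (h : t ≠ r) (hz : z ≠ 0) (h1 : th t z = 0)
    (h2 : th t (r * z) = 0) : False := by
  obtain ⟨i, hi⟩ := th_zero ht hz h1
  by_cases h0 : t = 0
  · have hi0 : i = 0 := by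
      by_contra hne
      rw [h0, zero_zpow _ hne] at hi
      exact hz hi
    rw [hi, hi0, zpow_zero, mul_one] at h2
    exact th_r ht h h2
  · rw [hi, mul_comm, th_zpow (by linarith) h0 r_ne] at h2
    exact th_r ht h h2

theorem inj_core {k k' : ℕ} {w w' : Par} (h : Om k w) (h' : Om k' w') (e : Psi w = Psi w') :
    ∃ j : ℤ, w 1 / w' 1 = w 0 ^ j := by
  have e0 : w 0 = w' 0 := congrFun e 0
  have e1 := congrFun e 1
  have e2 := congrFun e 2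
  have e3 := congrFun e 3
  have e4 := congrFun e 4
  simp only [Psi1, Psi2, Psi3, Psi4, ← e0] at e1 e2 e3 e4
  have a1 : W 1 (w 0) (w 1) (w' 1) = 0 := by
    apply mul_left_cancel₀ h.l_ne
    rw [W, ell]
    linear_combination Qv 1 (w 0) (w' 1) * e2 - Pv 1 (w 0) (w' 1) * e1
  have a2 : W r (w 0) (w 1) (w' 1) = 0 := by
    apply mul_left_cancel₀ h.m_ne
    rw [W, ell]
    linear_combination Qv r (w 0) (w' 1) * e4 - Pv r (w 0) (w' 1) * e3
  rw [W_th h.t_lt_one one_ne_zero h.x_ne h'.x_ne] at a1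
  rw [W_th h.t_lt_one r_ne h.x_ne h'.x_ne] at a2
  refine th_zero h.t_lt (div_ne_zero h.x_ne h'.x_ne) ?_
  by_contra hne
  simp only [mul_eq_zero, h'.x_ne, hne, false_or, one_mul] at a1 a2
  rw [mul_assoc] at a2
  exact no_common h.t_lt h.t_ne (mul_ne_zero h.x_ne h'.x_ne) a1 a2

theorem same_x {w w' : Par} (ht : ‖w 0‖ < 1 / 100) (hx : w 1 ≠ 0) (e : Psi w = Psi w')
    (ex : w 1 = w' 1) : w = w' := by
  have e0 : w 0 = w' 0 := congrFun e 0
  have e1 := congrFun e 1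
  have e2 := congrFun e 2
  have e3 := congrFun e 3
  have e4 := congrFun e 4
  simp only [Psi1, Psi2, Psi3, Psi4, ← e0, ← ex] at e1 e2 e3 e4
  refine par_ext e0 ex ?_ ?_ (congrFun e 5)
  · rcases vec_ne ht (Or.inl rfl) hx with h | h
    exacts [mul_right_cancel₀ h e1, mul_right_cancel₀ h e2]
  · rcases vec_ne ht (Or.inr rfl) hx with h | h
    exacts [mul_right_cancel₀ h e3, mul_right_cancel₀ h e4]

theorem inj_nat {w w' : Par} (h : Om 0 w) (h' : Om 0 w') (h0 : w' 0 ≠ 0) (e : Psi w = Psi w')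
    {j : ℕ} (hj : w 1 = w' 0 ^ j * w' 1) : w = w' := by
  have h1 : w = sh j w' :=
    same_x h.t_lt h.x_ne (e.trans (Psi_sh h'.t_lt_one h0 h'.x_ne j).symm) hj
  have h2 := h.s_lt
  have h3 := h'.s_lt
  rw [pow_zero, one_mul] at h2 h3
  rw [h1, sh_ratio h0 h'.x_ne, mul_div_assoc] at h2
  rw [disc_disj h3 h2, pow_zero, one_mul] at hj
  exact same_x h.t_lt h.x_ne e hj

theorem inj_zero {w w' : Par} (h : Om 0 w) (h' : Om 0 w') (h0 : w 0 ≠ 0) (e : Psi w = Psi w') :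
    w = w' := by
  have e0 : w 0 = w' 0 := congrFun e 0
  obtain ⟨j, hj⟩ := inj_core h h' e
  rw [div_eq_iff h'.x_ne] at hj
  rcases Int.eq_nat_or_neg j with ⟨i, rfl | rfl⟩
  · rw [zpow_natCast, e0] at hj
    exact inj_nat h h' (e0 ▸ h0) e hj
  · refine (inj_nat h' h h0 e.symm (j := i) ?_).symm
    rw [hj, zpow_neg, zpow_natCast]; field_simp

theorem cons {k k' : ℕ} {w w' : Par} (h : Om k w) (h' : Om k' w') (e : Psi w = Psi w') :
    (w = w' ∧ k = k') ∨ (w 0 ≠ 0 ∧ w' 0 ≠ 0 ∧ sh k w = sh k' w') := by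
  have e0 : w 0 = w' 0 := congrFun e 0
  by_cases h0 : w 0 = 0
  · left
    obtain ⟨j, hj⟩ := inj_core h h' e
    have hj0 : j = 0 := by
      by_contra hne
      rw [h0, zero_zpow _ hne] at hj
      exact div_ne_zero h.x_ne h'.x_ne hj
    rw [hj0, zpow_zero, div_eq_one_iff_eq h'.x_ne] at hj
    have e' := same_x h.t_lt h.x_ne e hj
    subst e'
    refine ⟨rfl, ?_⟩
    have h1 := h.s_lt
    have h2 := h'.s_lt
    rcases le_total k k' with hk | hk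
    · obtain ⟨i, rfl⟩ := Nat.exists_eq_add_of_le hk
      rw [show r ^ (k + i) * w 3 / w 2 = r ^ i * (r ^ k * w 3 / w 2) by ring] at h2
      simp [disc_disj h1 h2]
    · obtain ⟨i, rfl⟩ := Nat.exists_eq_add_of_le hk
      rw [show r ^ (k' + i) * w 3 / w 2 = r ^ i * (r ^ k' * w 3 / w 2) by ring] at h1
      simp [disc_disj h2 h1]
  · right
    have h0' : w' 0 ≠ 0 := e0 ▸ h0
    refine ⟨h0, h0', inj_zero (h.sh h0) (h'.sh h0') h0 ?_⟩
    rw [Psi_sh h.t_lt_one h0 h.x_ne, Psi_sh h'.t_lt_one h0' h'.x_ne, e]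

end Pool.Agent.P.MP_0cf9ad_an
end

-- part Pool.Agent.P.MP_0cf9ad_an.Descent
section

/-!
The charts are open, and compatible holomorphic functions on them descend.
-/

set_option autoImplicit false

open Metric Filter Topology Set

namespace Pool.Agent.P.MP_0cf9ad_an

theorem cd_Psi {E : Type} [NormedAddCommGroup E] [NormedSpace ℂ E] {g : E → Par} {x : E}
    (hg : ContDiffAt ℂ 1 g x) (ht : ‖g x 0‖ < 1) (hx : g x 1 ≠ 0) :
    ContDiffAt ℂ 1 (fun y => Psi (g y)) x := by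
  have h : ∀ i, ContDiffAt ℂ 1 (fun y => g y i) x := contDiffAt_pi.1 hg
  rw [contDiffAt_pi]
  intro i
  fin_cases i
  · exact h 0
  · exact (h 2).mul (cd_Q one_ne_zero (h 0) (h 1) ht hx)
  · exact (h 2).mul (cd_P one_ne_zero (h 0) (h 1) ht hx)
  · exact (h 3).mul (cd_Q r_ne (h 0) (h 1) ht hx)
  · exact (h 3).mul (cd_P r_ne (h 0) (h 1) ht hx)
  · exact h 4

theorem cd_coord {n : ℕ} (i : Fin n) (p : Fin n → ℂ) :
    ContDiffAt ℂ 1 (fun q : Fin n → ℂ => q i) p := by fun_prop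

theorem sec2 {k : ℕ} {w : Par} (h : Om k w) :
    ∃ X L M : Amb → ℂ, ContDiffAt ℂ 1 X (Psi w) ∧ ContDiffAt ℂ 1 L (Psi w) ∧
      ContDiffAt ℂ 1 M (Psi w) ∧ X (Psi w) = w 1 ∧ L (Psi w) = w 2 ∧ M (Psi w) = w 3 ∧
      ∀ᶠ p in 𝓝 (Psi w), p ∈ XX →
        (p 1 = L p * Qv 1 (p 0) (X p) ∧ p 2 = L p * Pv 1 (p 0) (X p)) ∧
        (p 3 = M p * Qv r (p 0) (X p) ∧ p 4 = M p * Pv r (p 0) (X p)) := by
  by_cases h1 : th (w 0) (r * w 1 * w 1) = 0
  · have h2 : th (w 0) (1 * w 1 * w 1) ≠ 0 := fun h2 => by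
      rw [one_mul] at h2
      rw [mul_assoc] at h1
      exact no_common h.t_lt h.t_ne (mul_ne_zero h.x_ne h.x_ne) h2 h1
    obtain ⟨X, M, L, hX, hM, hL, eX, eM, eL, he⟩ := sec (E := Amb) (p0 := Psi w) (c := r) (d := 1)
      (Or.inr rfl) (Or.inl rfl) (cd_coord 0 _) (cd_coord 3 _) (cd_coord 4 _) (cd_coord 1 _)
      (cd_coord 2 _) h.t_lt h.x_ne h.m_ne h.l_ne rfl rfl rfl rfl h2
      (by rw [div_one]; exact th_r h.t_lt h.t_ne)
    refine ⟨X, L, M, hX, hL, hM, eX, eL, eM, ?_⟩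
    filter_upwards [he, hL.continuousAt.eventually_ne (eL ▸ h.l_ne),
      hX.continuousAt.eventually_ne (eX ▸ h.x_ne)] with p h3 h4 h5 hp
    refine ⟨h3.1, h3.2 ?_⟩
    have h6 := hp.2.1
    rw [Bp, h3.1.1, h3.1.2, BB_left (by linarith [hp.1]) h5] at h6
    exact (mul_eq_zero.1 h6).resolve_left (mul_ne_zero (pow_ne_zero _ h4) (kap_ne hp.1))
  · obtain ⟨X, L, M, hX, hL, hM, eX, eL, eM, he⟩ := sec (E := Amb) (p0 := Psi w) (c := 1) (d := r)
      (Or.inl rfl) (Or.inr rfl) (cd_coord 0 _) (cd_coord 1 _) (cd_coord 2 _) (cd_coord 3 _)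
      (cd_coord 4 _) h.t_lt h.x_ne h.l_ne h.m_ne rfl rfl rfl rfl h1
      (by rw [one_div]; exact th_r_inv h.t_lt h.t_ne)
    refine ⟨X, L, M, hX, hL, hM, eX, eL, eM, ?_⟩
    filter_upwards [he, hM.continuousAt.eventually_ne (eM ▸ h.m_ne),
      hX.continuousAt.eventually_ne (eX ▸ h.x_ne)] with p h3 h4 h5 hp
    refine ⟨h3.2 ?_, h3.1⟩
    have h6 := hp.2.1
    rw [Bp, h3.1.1, h3.1.2, BB_right hp.1 h5] at h6
    exact (mul_eq_zero.1 h6).resolve_left (mul_ne_zero (pow_ne_zero _ h4) (kap_ne hp.1))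

theorem sec3 {k : ℕ} {w : Par} (h : Om k w) :
    ∃ ρ : Amb → Par, ContDiffAt ℂ 1 ρ (Psi w) ∧ ρ (Psi w) = w ∧
      ∀ᶠ p in 𝓝 (Psi w), p ∈ XX → Om k (ρ p) ∧ Psi (ρ p) = p := by
  obtain ⟨X, L, M, hX, hL, hM, eX, eL, eM, he⟩ := sec2 h
  refine ⟨fun p => ![p 0, X p, L p, M p, p 5], ?_, par_ext rfl eX eL eM rfl, ?_⟩
  · rw [contDiffAt_pi]
    intro i
    fin_cases i
    exacts [cd_coord 0 _, hX, hL, hM, cd_coord 5 _]
  · have h1 : ContinuousAt (fun p => ‖r ^ k * M p / L p - 1‖) (Psi w) :=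
      (((continuousAt_const.mul hM.continuousAt).div hL.continuousAt (eL ▸ h.l_ne)).sub
        continuousAt_const).norm
    have h2 : ‖r ^ k * M (Psi w) / L (Psi w) - 1‖ < 1 / 2 := by rw [eM, eL]; exact h.s_lt
    filter_upwards [he, hL.continuousAt.eventually_ne (eL ▸ h.l_ne),
      hX.continuousAt.eventually_ne (eX ▸ h.x_ne), h1.eventually (gt_mem_nhds h2),
      (cd_coord 0 (Psi w)).continuousAt.eventually_ne h.t_ne] with p h3 h4 h5 h6 h7 hp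
    obtain ⟨⟨a1, a2⟩, a3, a4⟩ := h3 hp
    have e : Psi ![p 0, X p, L p, M p, p 5] = p :=
      amb_ext rfl a1.symm a2.symm a3.symm a4.symm rfl
    exact ⟨⟨hp.1, h7, h5, h4, h6, by rw [e]; exact hp.2.2⟩, e⟩

theorem UU_sub (n : ℕ) : UU n ⊆ XX := by
  rintro _ ⟨k, -, w, h, rfl⟩
  exact h.mem

theorem UU_mono : Monotone UU := by
  rintro a b hab p ⟨k, hk, h⟩
  exact ⟨k, hk.trans hab, h⟩

theorem UU_open (n : ℕ) : ∃ V : Set Amb, IsOpen V ∧ UU n = XX ∩ V := by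
  refine ⟨interior {p | p ∈ XX → p ∈ UU n}, isOpen_interior, Subset.antisymm ?_ ?_⟩
  · rintro _ ⟨k, hk, w, h, rfl⟩
    refine ⟨h.mem, mem_interior_iff_mem_nhds.2 ?_⟩
    obtain ⟨ρ, -, -, he⟩ := sec3 h
    filter_upwards [he] with p hp hX
    exact ⟨k, hk, ρ p, hp hX⟩
  · exact fun p hp => interior_subset hp.2 hp.1

theorem descent (n : ℕ) (F : Par → ℂ) (G : ℕ → Par → ℂ)
    (hG : ∀ k ≤ n, ∀ w, Om k w → ContDiffAt ℂ 1 (G k) w)
    (hF : ∀ k ≤ n, ∀ w, Om k w → w 0 ≠ 0 → G k w = F (sh k w)) :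
    ∃ f : Amb → ℂ, Hol (UU n) f ∧ ∀ k ≤ n, ∀ w, Om k w → f (Psi w) = G k w := by
  classical
  have h1 : ∀ p : Amb, ∃ a : ℂ, ∀ k ≤ n, ∀ w, Om k w → Psi w = p → a = G k w := by
    intro p
    by_cases hp : p ∈ UU n
    · obtain ⟨k, hk, w, h, rfl⟩ := hp
      refine ⟨G k w, fun k' hk' w' h' e => ?_⟩
      rcases cons h h' e.symm with ⟨rfl, rfl⟩ | ⟨a, b, c⟩
      · rfl
      · rw [hF k hk w h a, hF k' hk' w' h' b, c]
    · exact ⟨0, fun k hk w h e => absurd ⟨k, hk, w, h, e⟩ hp⟩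
  choose f hf using h1
  refine ⟨f, hol_of_local ?_, fun k hk w h => hf _ k hk w h rfl⟩
  rintro _ ⟨k, hk, w, h, rfl⟩
  obtain ⟨ρ, h2, h3, h4⟩ := sec3 h
  refine ⟨fun p => G k (ρ p), ContDiffAt.comp (g := G k) _ (by rw [h3]; exact hG k hk w h) h2, ?_⟩
  filter_upwards [h4] with p hp hU
  obtain ⟨a, b⟩ := hp (UU_sub n hU)
  exact hf p k hk _ a b

theorem cd_hh (p : Amb) : ContDiffAt ℂ 1 hh p := by
  unfold hh; fun_prop

theorem cd_Bp {p : Amb} (hp : ‖p 0‖ < 1) : ContDiffAt ℂ 1 Bp p :=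
  cd_BB (cd_coord 0 p) (cd_coord 1 p) (cd_coord 2 p) (cd_coord 3 p) (cd_coord 4 p) hp

theorem XX_analytic : IsAnalyticSet XX := by
  refine ⟨{p | ‖p 0‖ < 1 / 100}, isOpen_lt (by fun_prop) continuous_const, 2,
    ![Bp, fun p => p 0 * p 5 - hh p], fun i p hp => ?_, ?_⟩
  · refine DifferentiableAt.differentiableWithinAt (ContDiffAt.differentiableAt ?_ one_ne_zero)
    fin_cases i
    · exact cd_Bp (lt_trans hp (by norm_num))
    · exact ((cd_coord 0 p).mul (cd_coord 5 p)).sub (cd_hh p)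
  · ext p
    simp [XX, Fin.forall_fin_two, sub_eq_zero]

theorem XX_stein : IsStein XX := by
  refine isStein_of_limit fun K hK hc l p hl hp => ?_
  obtain ⟨C, hC, h1⟩ := hull_bound_lt hK hc (hol_coord 0) (a := 1 / 100) (by norm_num)
    fun y hy => hy.1
  have h2 : ‖p 0‖ ≤ C :=
    le_of_tendsto ((cd_coord 0 p).continuousAt.norm.tendsto.mono_left hp) (mem_of_superset hl h1)
  have h3 : ‖p 0‖ < 1 / 100 := by linarith
  refine ⟨h3, ?_, ?_⟩
  · exact tendsto_nhds_unique_of_eventuallyEq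
      ((cd_Bp (by linarith)).continuousAt.tendsto.mono_left hp) tendsto_const_nhds
      (mem_of_superset hl fun q hq => hq.1.2.1)
  · exact tendsto_nhds_unique_of_eventuallyEq
      (((cd_coord 0 p).mul (cd_coord 5 p)).continuousAt.tendsto.mono_left hp)
      ((cd_hh p).continuousAt.tendsto.mono_left hp) (mem_of_superset hl fun q hq => hq.1.2.2)

end Pool.Agent.P.MP_0cf9ad_an
end

-- part Pool.Agent.P.MP_0cf9ad_an.Funcs
section

/-!
Holomorphic functions on the open subsets.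
-/

set_option autoImplicit false

open Metric Filter Topology Set

namespace Pool.Agent.P.MP_0cf9ad_an

noncomputable def RR (w : Par) : ℂ :=
  r * w 2 * w 3 * w 1 * ((1 + w 1 ^ 2) * QR (w 0) (r * w 1 ^ 2) + PR (w 0) (1 * w 1 ^ 2) +
      w 0 * PR (w 0) (1 * w 1 ^ 2) * QR (w 0) (r * w 1 ^ 2)) -
    w 2 * w 3 * w 1 * (PR (w 0) (r * w 1 ^ 2) + QR (w 0) (1 * w 1 ^ 2) * (1 + r * w 1 ^ 2) +
      w 0 * QR (w 0) (1 * w 1 ^ 2) * PR (w 0) (r * w 1 ^ 2)) +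
    (1 - r) * w 2 ^ 2 * w 1 ^ 2 * (2 * QR (w 0) (1 * w 1 ^ 2) + w 0 * QR (w 0) (1 * w 1 ^ 2) ^ 2)

theorem hh_Psi {w : Par} (ht : ‖w 0‖ < 1) :
    hh (Psi w) = (1 - r) * w 2 * w 1 * (w 2 * w 1 - w 3) + w 0 * RR w := by
  simp only [hh, Psi1, Psi2, Psi3, Psi4, Pv, Qv, PP_eq ht, QQ_eq ht, RR]
  ring

theorem cd_RR {E : Type} [NormedAddCommGroup E] [NormedSpace ℂ E] {g : E → Par} {x : E}
    (h0 : ContDiffAt ℂ 1 (fun y => g y 0) x) (h1 : ContDiffAt ℂ 1 (fun y => g y 1) x)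
    (h2 : ContDiffAt ℂ 1 (fun y => g y 2) x) (h3 : ContDiffAt ℂ 1 (fun y => g y 3) x)
    (ht : ‖g x 0‖ < 1) (hx : g x 1 ≠ 0) : ContDiffAt ℂ 1 (fun y => RR (g y)) x := by
  have hr := r_ne
  have a1 := cd_PR h0 (Y := fun y => 1 * g y 1 ^ 2) (by fun_prop) ht (by simp [hx])
  have a2 := cd_PR h0 (Y := fun y => r * g y 1 ^ 2) (by fun_prop) ht (by positivity)
  have a3 := cd_QR h0 (Y := fun y => 1 * g y 1 ^ 2) (by fun_prop) ht (by simp [hx])
  have a4 := cd_QR h0 (Y := fun y => r * g y 1 ^ 2) (by fun_prop) ht (by positivity)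
  unfold RR
  fun_prop

theorem one_sub_r : (1 - r) ≠ 0 := by norm_num [r]

noncomputable def xi (w : Par) : ℂ := (w 4 - RR w) / ((1 - r) * w 2 * w 3 * w 1)

/-- the inverse of the normalised fibre coordinate -/
noncomputable def iy (w : Par) : ℂ := w 3 / w 2 / w 1

theorem Om.iy_ne {k : ℕ} {w : Par} (h : Om k w) : iy w ≠ 0 :=
  div_ne_zero (div_ne_zero h.m_ne h.l_ne) h.x_ne

theorem Om.xi_eq {k : ℕ} {w : Par} (h : Om k w) : w 0 * xi w * iy w = 1 - iy w := by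
  have h1 := h.eq
  rw [hh_Psi h.t_lt_one] at h1
  have := h.x_ne
  have := h.l_ne
  have := h.m_ne
  have := one_sub_r
  rw [xi, iy]
  field_simp
  linear_combination h1

theorem Om.cd_xi {k : ℕ} {w : Par} (h : Om k w) : ContDiffAt ℂ 1 xi w :=
  ((cd_coord 4 w).sub (cd_RR (g := fun y => y) (cd_coord 0 w) (cd_coord 1 w) (cd_coord 2 w)
    (cd_coord 3 w) h.t_lt_one h.x_ne)).div (by fun_prop)
    (mul_ne_zero (mul_ne_zero (mul_ne_zero one_sub_r h.l_ne) h.m_ne) h.x_ne)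

theorem Om.cd_iy {k : ℕ} {w : Par} (h : Om k w) : ContDiffAt ℂ 1 iy w :=
  ((cd_coord 3 w).div (cd_coord 2 w) h.l_ne).div (cd_coord 1 w) h.x_ne

noncomputable def phi (j : ℕ) (ε : ℂ) (w : Par) : ℂ := 1 - (w 0 / r) ^ j * (1 + ε * w 0) * iy w

noncomputable def gg (k j : ℕ) (ε : ℂ) (w : Par) : ℂ :=
  if j < k then w 0 ^ (k - j) - r ^ (k - j) * (1 + ε * w 0) * iy w
  else if j = k then (xi w - ε) * iy w
  else 1 - (w 0 / r) ^ (j - k) * (1 + ε * w 0) * iy w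

theorem iy_sh {w : Par} (h0 : w 0 ≠ 0) (hx : w 1 ≠ 0) (k : ℕ) :
    iy (sh k w) = (r / w 0) ^ k * iy w := by
  rw [iy, sh_ratio h0 hx, sh1, iy, div_pow]
  field_simp

theorem phi_sh {k : ℕ} {w : Par} (h : Om k w) (h0 : w 0 ≠ 0) (j : ℕ) (ε : ℂ) :
    phi j ε (sh k w) * w 0 ^ (k - j) = w 0 ^ (if j = k then 1 else 0) * gg k j ε w := by
  have hr := r_ne
  rw [phi, iy_sh h0 h.x_ne, sh0, gg]
  rcases lt_trichotomy j k with hj | rfl | hj
  · obtain ⟨i, rfl⟩ := Nat.exists_eq_add_of_le hj.le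
    rw [if_pos hj, if_neg hj.ne, Nat.add_sub_cancel_left, div_pow, div_pow]
    field_simp
    ring
  · rw [if_neg (lt_irrefl _), if_pos rfl, if_pos rfl, Nat.sub_self, div_pow, div_pow]
    field_simp
    linear_combination -h.xi_eq
  · obtain ⟨i, rfl⟩ := Nat.exists_eq_add_of_le hj.le
    rw [if_neg hj.ne', if_neg (not_lt.2 hj.le), if_neg hj.ne', Nat.add_sub_cancel_left,
      Nat.sub_eq_zero_of_le hj.le, div_pow, div_pow, div_pow]
    field_simp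
    ring

theorem Om.cd_gg {k : ℕ} {w : Par} (h : Om k w) (j : ℕ) (ε : ℂ) : ContDiffAt ℂ 1 (gg k j ε) w := by
  have h1 := h.cd_xi
  have h2 := h.cd_iy
  unfold gg
  split_ifs <;> fun_prop

theorem exists_mult (a : ℕ → ℕ) :
    ∃ m : ℕ → ℕ, ∀ k, m k = a k + ∑ j ∈ Finset.range k, (k - j) * m j := by
  let s : ℕ → ℕ × ℕ := fun n => Nat.rec (0, 0)
    (fun k p => (p.1 + (a k + p.2), p.2 + (p.1 + (a k + p.2)))) n
  have hs : ∀ k, s (k + 1) = ((s k).1 + (a k + (s k).2), (s k).2 + ((s k).1 + (a k + (s k).2))) :=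
    fun _ => rfl
  have key : ∀ k, (s k).1 = ∑ j ∈ Finset.range k, (a j + (s j).2) ∧
      (s k).2 = ∑ j ∈ Finset.range k, (k - j) * (a j + (s j).2) := by
    intro k
    induction k with
    | zero => exact ⟨rfl, rfl⟩
    | succ k ih =>
      rw [hs]
      refine ⟨by rw [Finset.sum_range_succ, ← ih.1], ?_⟩
      have : ∑ j ∈ Finset.range k, (k + 1 - j) * (a j + (s j).2) =
          ∑ j ∈ Finset.range k, (k - j) * (a j + (s j).2) +
            ∑ j ∈ Finset.range k, (a j + (s j).2) := by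
        rw [← Finset.sum_add_distrib]
        refine Finset.sum_congr rfl fun j hj => ?_
        rw [Nat.sub_add_comm (Finset.mem_range.1 hj).le]; ring
      rw [Finset.sum_range_succ, this, ← ih.1, ← ih.2]
      simp only [Nat.add_sub_cancel_left]
      ring
  exact ⟨fun k => a k + (s k).2, fun k => by rw [← (key k).2]⟩

noncomputable def Pi0 (n : ℕ) (m : ℕ → ℕ) (ε : ℂ) (w : Par) : ℂ :=
  ∏ j ∈ Finset.range (n + 1), phi j ε w ^ m j

noncomputable def GG (n : ℕ) (m : ℕ → ℕ) (ε : ℂ) (k : ℕ) (w : Par) : ℂ :=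
  ∏ j ∈ Finset.range (n + 1), gg k j ε w ^ m j

theorem Pi0_sh {a m : ℕ → ℕ} (hm : ∀ k, m k = a k + ∑ j ∈ Finset.range k, (k - j) * m j)
    {n k : ℕ} (hk : k ≤ n) {w : Par} (h : Om k w) (h0 : w 0 ≠ 0) (ε : ℂ) :
    Pi0 n m ε (sh k w) = w 0 ^ a k * GG n m ε k w := by
  have h1 : ∏ j ∈ Finset.range (n + 1), (phi j ε (sh k w) * w 0 ^ (k - j)) ^ m j =
      ∏ j ∈ Finset.range (n + 1), (w 0 ^ (if j = k then 1 else 0) * gg k j ε w) ^ m j :=
    Finset.prod_congr rfl fun j _ => by rw [phi_sh h h0]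
  simp only [mul_pow, Finset.prod_mul_distrib, ← pow_mul, Finset.prod_pow_eq_pow_sum] at h1
  have h2 : ∑ j ∈ Finset.range (n + 1), (if j = k then 1 else 0) * m j = m k := by
    simp [Nat.lt_succ_of_le hk]
  have h3 : ∑ j ∈ Finset.range (n + 1), (k - j) * m j = ∑ j ∈ Finset.range k, (k - j) * m j := by
    refine (Finset.sum_subset (Finset.range_mono (by omega)) fun j _ hj => ?_).symm
    rw [Finset.mem_range, not_lt] at hj
    rw [Nat.sub_eq_zero_of_le hj, zero_mul]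
  rw [h2, h3, hm k, pow_add] at h1
  apply mul_right_cancel₀ (pow_ne_zero (∑ j ∈ Finset.range k, (k - j) * m j) h0)
  rw [Pi0, h1, GG]; ring

theorem Om.cd_GG {k : ℕ} {w : Par} (h : Om k w) (n : ℕ) (m : ℕ → ℕ) (ε : ℂ) :
    ContDiffAt ℂ 1 (GG n m ε k) w :=
  contDiffAt_prod (f := fun j w => gg k j ε w ^ m j) fun j _ => (h.cd_gg j ε).pow _

theorem ee_mono : Monotone ee := monotone_nat_of_le_succ fun k => by rw [ee_succ]; omega

/-- a family of chart functions that is bounded on every hull -/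
def Bdd (n : ℕ) (G : ℕ → Par → ℂ) : Prop :=
  ∀ K : Set Amb, ∃ C : ℝ, 0 < C ∧ ∀ k ≤ n, ∀ w, Om k w → Psi w ∈ hull (UU n) K → ‖G k w‖ ≤ C

theorem bdd_of (n : ℕ) (F : Par → ℂ) (G : ℕ → Par → ℂ)
    (hG : ∀ k ≤ n, ∀ w, Om k w → ContDiffAt ℂ 1 (G k) w)
    (hF : ∀ k ≤ n, ∀ w, Om k w → w 0 ≠ 0 → G k w = F (sh k w)) : Bdd n G := by
  intro K
  obtain ⟨f, h1, h2⟩ := descent n F G hG hF
  obtain ⟨C, hC, h3⟩ := hull_bound (K := K) h1
  exact ⟨C, hC, fun k hk w h hw => by rw [← h2 k hk w h]; exact h3 _ hw⟩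

theorem bdd_x (n : ℕ) : Bdd n fun k w => w 0 ^ k * w 1 :=
  bdd_of n (fun w => w 1) _ (fun _ _ _ _ => by fun_prop) fun _ _ _ _ _ => rfl

theorem bdd_ix (n : ℕ) : Bdd n fun k w => w 0 ^ (n - k) / w 1 := by
  refine bdd_of n (fun w => w 0 ^ n / w 1) _
    (fun _ _ w h => ContDiffAt.div (by fun_prop) (cd_coord 1 w) h.x_ne) fun k hk w h h0 => ?_
  obtain ⟨i, rfl⟩ := Nat.exists_eq_add_of_le hk
  have := h.x_ne
  simp only [sh0, sh1, Nat.add_sub_cancel_left]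
  field_simp
  ring

theorem bdd_il (n : ℕ) : Bdd n fun k w => w 0 ^ (ee n - ee k) / (w 2 * w 1 ^ (2 * k)) := by
  refine bdd_of n (fun w => w 0 ^ ee n / w 2) _
    (fun _ _ w h => ContDiffAt.div (by fun_prop) (by fun_prop)
      (mul_ne_zero h.l_ne (pow_ne_zero _ h.x_ne))) fun k hk w h h0 => ?_
  obtain ⟨i, hi⟩ := Nat.exists_eq_add_of_le (ee_mono hk)
  have := h.x_ne
  have := h.l_ne
  simp only [sh0, sh2, hi, Nat.add_sub_cancel_left]
  field_simp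
  ring

theorem bdd_one {m : ℕ → ℕ} (hm : ∀ k, m k = 1 + ∑ j ∈ Finset.range k, (k - j) * m j) (n : ℕ) :
    Bdd n (GG n m 0) := by
  refine bdd_of n (fun w => Pi0 n m 0 w / w 0) _ (fun _ _ w h => h.cd_GG n m 0)
    fun k hk w h h0 => ?_
  simp only [sh0]
  rw [Pi0_sh (a := fun _ => 1) hm hk h h0]
  field_simp

theorem bdd_ee {m : ℕ → ℕ} (hm : ∀ k, m k = ee k + ∑ j ∈ Finset.range k, (k - j) * m j) (n : ℕ)
    (ε : ℂ) : Bdd n fun k w => GG n m ε k w / (w 2 * w 1 ^ (2 * k)) := by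
  refine bdd_of n (fun w => Pi0 n m ε w / w 2) _ (fun _ _ w h => (h.cd_GG n m ε).div (by fun_prop)
    (mul_ne_zero h.l_ne (pow_ne_zero _ h.x_ne))) fun k hk w h h0 => ?_
  have := h.x_ne
  have := h.l_ne
  simp only [sh2]
  rw [Pi0_sh hm hk h h0]
  field_simp

theorem bdd_s (n : ℕ) {K : Set Amb} (hK : K ⊆ UU n) (hc : IsCompact K) : ∃ C : ℝ, C < 1 / 2 ∧
    ∀ k ≤ n, ∀ w, Om k w → Psi w ∈ hull (UU n) K → ‖r ^ k * w 3 / w 2 - 1‖ ≤ C := by
  obtain ⟨f, h1, h2⟩ := descent n (fun w => w 3 / w 2 - 1) (fun k w => r ^ k * w 3 / w 2 - 1)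
    (fun _ _ w h => (ContDiffAt.div (by fun_prop) (cd_coord 2 w) h.l_ne).sub contDiffAt_const)
    fun k _ w h h0 => by simp only [sh_ratio h0 h.x_ne]
  obtain ⟨C, hC, h3⟩ := hull_bound_lt hK hc h1 (a := 1 / 2) (by norm_num) (by
    rintro _ ⟨k, hk, w, h, rfl⟩
    rw [h2 k hk w h]; exact h.s_lt)
  exact ⟨C, hC, fun k hk w h hw => by rw [← h2 k hk w h]; exact h3 _ hw⟩

end Pool.Agent.P.MP_0cf9ad_an
end

-- part Pool.Agent.P.MP_0cf9ad_an.Stein
section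

/-!
The open subsets are Stein.
-/

set_option autoImplicit false

open Metric Filter Topology Set

namespace Pool.Agent.P.MP_0cf9ad_an

theorem ulim {ι : Type} (l : Ultrafilter ι) {g : ι → ℂ} {S : Set ℂ} (hS : IsCompact S)
    (h : ∀ᶠ i in l, g i ∈ S) : ∃ a ∈ S, Tendsto g l (𝓝 a) :=
  hS.ultrafilter_le_nhds (l.map g) (le_principal_iff.2 h)

theorem tendsto_vec {ι : Type} {l : Filter ι} {T X : ι → ℂ} {c t x : ℂ} (hc : c ≠ 0)
    (hT : Tendsto T l (𝓝 t)) (hX : Tendsto X l (𝓝 x)) (ht : ‖t‖ < 1) (hx : x ≠ 0) :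
    Tendsto (fun i => Qv c (T i) (X i)) l (𝓝 (Qv c t x)) ∧
      Tendsto (fun i => Pv c (T i) (X i)) l (𝓝 (Pv c t x)) := by
  have h1 : ContinuousAt (fun p : ℂ × ℂ => Qv c p.1 p.2) (t, x) :=
    (cd_Q (T := fun p : ℂ × ℂ => p.1) (Y := fun p : ℂ × ℂ => p.2) (x := (t, x)) hc contDiffAt_fst
      contDiffAt_snd ht hx).continuousAt
  have h2 : ContinuousAt (fun p : ℂ × ℂ => Pv c p.1 p.2) (t, x) :=
    (cd_P (T := fun p : ℂ × ℂ => p.1) (Y := fun p : ℂ × ℂ => p.2) (x := (t, x)) hc contDiffAt_fst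
      contDiffAt_snd ht hx).continuousAt
  have h3 := h1.tendsto.comp (hT.prodMk_nhds hX)
  have h4 := h2.tendsto.comp (hT.prodMk_nhds hX)
  exact ⟨h3, h4⟩

theorem lim {ι : Type} {l : Filter ι} [l.NeBot] {ω : ι → Par} {k : ℕ} {p : Amb} {u s : ℂ}
    (hO : ∀ᶠ i in l, Om k (ω i)) (hp : Tendsto (fun i => Psi (ω i)) l (𝓝 p))
    (hu : Tendsto (fun i => ω i 1) l (𝓝 u)) (hu0 : u ≠ 0)
    (hs : Tendsto (fun i => r ^ k * ω i 3 / ω i 2) l (𝓝 s)) (hs1 : ‖s - 1‖ < 1 / 2)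
    (ht : ‖p 0‖ < 1 / 100) (hr : p 0 ≠ r) :
    ∃ a, Tendsto (fun i => ω i 2) l (𝓝 a) ∧ (a ≠ 0 → ∃ w, Om k w ∧ Psi w = p) := by
  have hc : ∀ j, Tendsto (fun i => Psi (ω i) j) l (𝓝 (p j)) := tendsto_pi_nhds.1 hp
  have h0 : Tendsto (fun i => ω i 0) l (𝓝 (p 0)) := hc 0
  obtain ⟨hQ, hP⟩ := tendsto_vec one_ne_zero h0 hu (by linarith) hu0
  have key : ∃ a, Tendsto (fun i => ω i 2) l (𝓝 a) := by
    rcases vec_ne ht (Or.inl rfl) hu0 with h | h
    · refine ⟨_, ((hc 1).div hQ h).congr' ?_⟩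
      filter_upwards [hQ.eventually_ne h] with i hi
      simp only [Pi.div_apply, Psi1]; field_simp
    · refine ⟨_, ((hc 2).div hP h).congr' ?_⟩
      filter_upwards [hP.eventually_ne h] with i hi
      simp only [Pi.div_apply, Psi2]; field_simp
  obtain ⟨a, ha⟩ := key
  refine ⟨a, ha, fun ha0 => ?_⟩
  have hr0 := r_ne
  set w : Par := ![p 0, u, a, s * a / r ^ k, p 5] with hw
  have h3 : Tendsto (fun i => ω i 3) l (𝓝 (s * a / r ^ k)) := by
    refine ((hs.mul ha).div_const (r ^ k)).congr' ?_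
    filter_upwards [hO] with i hi
    have := hi.l_ne
    field_simp
  have hω : Tendsto ω l (𝓝 w) := by
    rw [tendsto_pi_nhds]
    intro j
    fin_cases j
    exacts [h0, hu, ha, h3, hc 5]
  have e : Psi w = p := tendsto_nhds_unique
    ((cd_Psi (g := fun y => y) (x := w) contDiffAt_id (lt_trans ht (by norm_num))
      hu0).continuousAt.tendsto.comp hω) hp
  refine ⟨w, ⟨ht, hr, hu0, ha0, ?_, ?_⟩, e⟩
  · have : r ^ k * w 3 / w 2 = s := by
      change r ^ k * (s * a / r ^ k) / a = s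
      field_simp
    rw [this]; exact hs1
  · rw [e]
    exact tendsto_nhds_unique_of_eventuallyEq (h0.mul (hc 5))
      ((cd_hh p).continuousAt.tendsto.comp hp) (hO.mono fun i hi => hi.eq)

theorem ne_of_bound {ι : Type} {l : Filter ι} [l.NeBot] {f g : ι → ℂ} {a b : ℂ} {C : ℝ}
    (hf : Tendsto f l (𝓝 a)) (hg : Tendsto g l (𝓝 b)) (ha : a ≠ 0)
    (h : ∀ᶠ i in l, g i ≠ 0 ∧ ‖f i / g i‖ ≤ C) : b ≠ 0 := by
  rintro rfl
  have h1 : ‖a‖ ≤ C * ‖(0 : ℂ)‖ := by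
    refine le_of_tendsto_of_tendsto hf.norm (hg.norm.const_mul C) ?_
    filter_upwards [h] with i hi
    rw [norm_div, div_le_iff₀ (norm_pos_iff.2 hi.1)] at hi
    exact hi.2
  simp [ha] at h1

theorem sh_zero (w : Par) : sh 0 w = w := by
  refine par_ext rfl ?_ ?_ ?_ rfl <;> simp [ee]

theorem near_chart (n : ℕ) (K : Set Amb) : ∃ δ > 0, ∀ q ∈ hull (UU n) K, ‖q 0‖ < δ →
    ∃ k ∈ Finset.range (n + 1), ∃ w, Om k w ∧ Psi w = q ∧ 1 / 2 ≤ ‖iy w‖ ∧ ‖iy w‖ ≤ 2 := by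
  obtain ⟨m, hm⟩ := exists_mult fun _ => 1
  obtain ⟨C, hC, hb⟩ := bdd_one hm n K
  set c : ℝ := ∏ j ∈ Finset.range (n + 1), (1 / 2) ^ m j with hc
  have hc0 : 0 < c := Finset.prod_pos fun _ _ => by positivity
  refine ⟨c / C, by positivity, fun q hq hδ => ?_⟩
  obtain ⟨k, hk, w, h, rfl⟩ := hq.1
  by_cases h0 : w 0 = 0
  · have h1 := h.xi_eq
    rw [h0, zero_mul, zero_mul, eq_comm, sub_eq_zero] at h1
    refine ⟨k, Finset.mem_range.2 (by omega), w, h, rfl, ?_⟩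
    rw [← h1]; norm_num
  have h' := h.sh h0
  have e := Psi_sh h.t_lt_one h0 h.x_ne k
  have h0' : sh k w 0 ≠ 0 := h0
  have hδ' : ‖sh k w 0‖ < c / C := hδ
  rw [← e] at hq ⊢
  generalize sh k w = v at *
  by_contra hne
  have h1 : ∀ j ∈ Finset.range (n + 1), 1 / 2 ≤ ‖phi j 0 v‖ := by
    intro j hj
    obtain ⟨v', a1, a2, a3⟩ := h'.unsh h0' j
    have a0 : v' 0 = v 0 := by rw [← a2]; rfl
    have a4 : iy v' = (v 0 / r) ^ j * iy v := by
      have := r_ne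
      rw [← a0, ← a2, iy_sh (a0 ▸ h0') a1.x_ne, ← mul_assoc, ← mul_pow, div_mul_div_cancel₀ this,
        div_self (a0 ▸ h0'), one_pow, one_mul]
    have a5 : phi j 0 v = 1 - iy v' := by rw [phi, a4]; ring
    have a6 := abs_norm_sub_norm_le 1 (iy v')
    rw [abs_le, norm_one, ← a5] at a6
    by_contra a7
    exact hne ⟨j, hj, v', a1, a3, by linarith [a6.2], by linarith [a6.1]⟩
  have h2 : c ≤ ‖Pi0 n m 0 v‖ := by
    rw [Pi0, norm_prod]
    refine Finset.prod_le_prod (fun _ _ => by positivity) fun j hj => ?_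
    rw [norm_pow]
    exact pow_le_pow_left₀ (by norm_num) (h1 j hj) _
  have h3 := Pi0_sh (a := fun _ => 1) hm (Nat.zero_le n) h' h0' 0
  rw [sh_zero] at h3
  rw [h3, norm_mul, pow_one] at h2
  have h4 := hb 0 (Nat.zero_le n) v h' hq
  rw [lt_div_iff₀ hC] at hδ'
  nlinarith [norm_nonneg (v 0)]

theorem unit_lim {ι : Type} {l : Filter ι} {ω : ι → Par} {y : ℂ} (hy : y ≠ 0)
    (h0 : Tendsto (fun i => ω i 0) l (𝓝 0)) (h1 : Tendsto (fun i => iy (ω i)) l (𝓝 y))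
    {k j : ℕ} (hj : j ≠ k) (ε : ℂ) :
    ∃ a : ℂ, a ≠ 0 ∧ Tendsto (fun i => gg k j ε (ω i)) l (𝓝 a) := by
  have h2 : Tendsto (fun i => 1 + ε * ω i 0) l (𝓝 (1 + ε * 0)) := (h0.const_mul ε).const_add 1
  unfold gg
  split_ifs with h
  · refine ⟨_, ?_, (h0.pow _).sub ((h2.const_mul _).mul h1)⟩
    have : k - j ≠ 0 := by omega
    simp [this, hy, r_ne]
  · refine ⟨_, ?_, ((((h0.div_const r).pow _).mul h2).mul h1).const_sub 1⟩
    have : j - k ≠ 0 := by omega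
    simp [this]

theorem lam_ne {n k : ℕ} (hk : k ≤ n) {K : Set Amb} {ι : Type} {l : Filter ι} [l.NeBot]
    {ω : ι → Par} {y u : ℂ} (hO : ∀ᶠ i in l, Om k (ω i) ∧ Psi (ω i) ∈ hull (UU n) K)
    (hy : ∀ᶠ i in l, 1 / 2 ≤ ‖iy (ω i)‖) (hy0 : y ≠ 0)
    (h0 : Tendsto (fun i => ω i 0) l (𝓝 0)) (h1 : Tendsto (fun i => iy (ω i)) l (𝓝 y))
    (hu : Tendsto (fun i => ω i 1) l (𝓝 u)) (h2 : Tendsto (fun i => ω i 2) l (𝓝 0)) : False := by
  obtain ⟨m, hm⟩ := exists_mult ee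
  have key : ∀ ε : ℂ, Tendsto (fun i => gg k k ε (ω i) ^ m k) l (𝓝 0) := by
    intro ε
    obtain ⟨C, hC, hb⟩ := bdd_ee hm n ε K
    have a1 : Tendsto (fun i => GG n m ε k (ω i)) l (𝓝 0) := by
      have a2 := ((h2.mul (hu.pow (2 * k))).norm.const_mul C)
      rw [zero_mul, norm_zero, mul_zero] at a2
      refine squeeze_zero_norm' ?_ a2
      filter_upwards [hO] with i hi
      have := hb k hk _ hi.1 hi.2
      rwa [norm_div, div_le_iff₀
        (norm_pos_iff.2 (mul_ne_zero hi.1.l_ne (pow_ne_zero _ hi.1.x_ne)))] at this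
    have a3 : ∀ j : ℕ, ∃ a : ℂ, a ≠ 0 ∧ (j ≠ k → Tendsto (fun i => gg k j ε (ω i)) l (𝓝 a)) := by
      intro j
      by_cases hj : j = k
      · exact ⟨1, one_ne_zero, fun h => absurd hj h⟩
      · obtain ⟨a, b, c⟩ := unit_lim hy0 h0 h1 hj ε
        exact ⟨a, b, fun _ => c⟩
    choose a ha0 ha using a3
    have a4 : Tendsto (fun i => ∏ j ∈ (Finset.range (n + 1)).erase k, gg k j ε (ω i) ^ m j) l
        (𝓝 (∏ j ∈ (Finset.range (n + 1)).erase k, a j ^ m j)) :=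
      tendsto_finsetProd _ fun j hj => (ha j (Finset.ne_of_mem_erase hj)).pow _
    have a5 : ∏ j ∈ (Finset.range (n + 1)).erase k, a j ^ m j ≠ 0 :=
      Finset.prod_ne_zero_iff.2 fun j _ => pow_ne_zero _ (ha0 j)
    have a6 := a1.div a4 a5
    rw [zero_div] at a6
    refine a6.congr' ?_
    filter_upwards [a4.eventually_ne a5] with i hi
    simp only [Pi.div_apply]
    rw [GG, ← Finset.mul_prod_erase _ _ (Finset.mem_range.2 (Nat.lt_succ_of_le hk)),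
      mul_div_cancel_right₀ _ hi]
  have b : ∀ ε : ℂ, ∀ᶠ i in l, ‖gg k k ε (ω i)‖ < 1 / 4 := fun ε => by
    have := (key ε).norm
    rw [norm_zero] at this
    filter_upwards [this.eventually (gt_mem_nhds (show (0 : ℝ) < (1 / 4) ^ m k by positivity))]
      with i hi
    rw [norm_pow] at hi
    exact lt_of_pow_lt_pow_left₀ _ (by norm_num) hi
  obtain ⟨i, b0, b1, b2⟩ := ((b 0).and ((b 1).and hy)).exists
  have : iy (ω i) = gg k k 0 (ω i) - gg k k 1 (ω i) := by simp [gg]; ring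
  have h3 := norm_sub_le (gg k k 0 (ω i)) (gg k k 1 (ω i))
  rw [← this] at h3
  linarith

theorem UU_stein (n : ℕ) : IsStein (UU n) := by
  refine isStein_of_limit fun K hK hc l p hl hp => ?_
  have hp0 : Tendsto (fun q : Amb => q 0) l (𝓝 (p 0)) :=
    (cd_coord 0 p).continuousAt.tendsto.mono_left hp
  have ht : ‖p 0‖ < 1 / 100 := by
    obtain ⟨C, hC, h1⟩ := hull_bound_lt hK hc (hol_coord 0) (a := 1 / 100) (by norm_num)
      fun y hy => (UU_sub n hy).1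
    exact (le_of_tendsto hp0.norm (mem_of_superset hl h1)).trans_lt hC
  have hne : ∀ q ∈ UU n, q 0 - r ≠ 0 := by
    rintro _ ⟨k, -, w, h, rfl⟩
    exact sub_ne_zero.2 h.t_ne
  have hr : p 0 ≠ r := by
    obtain ⟨C, -, h1⟩ := hull_bound (K := K) (Y := UU n) (f := fun q => 1 / (q 0 - r))
      (hol_of_cd fun q hq => ContDiffAt.div contDiffAt_const (by fun_prop) (hne q hq))
    exact sub_ne_zero.1 (ne_of_bound tendsto_const_nhds (hp0.sub_const r) one_ne_zero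
      (mem_of_superset hl fun q hq => ⟨hne q hq.1, h1 q hq⟩))
  obtain ⟨Cs, hCs, hs⟩ := bdd_s n hK hc
  have hsl : ∀ k ≤ n, ∀ ω : Amb → Par, (∀ᶠ q in l, Om k (ω q) ∧ Psi (ω q) ∈ hull (UU n) K) →
      ∃ s, ‖s - 1‖ < 1 / 2 ∧ Tendsto (fun q => r ^ k * ω q 3 / ω q 2) l (𝓝 s) := by
    intro k hk ω h
    obtain ⟨s, h1, h2⟩ := ulim l (g := fun q => r ^ k * ω q 3 / ω q 2)
      (isCompact_closedBall (1 : ℂ) Cs)
      (h.mono fun q hq => mem_closedBall_iff_norm.2 (hs k hk _ hq.1 hq.2))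
    exact ⟨s, (mem_closedBall_iff_norm.1 h1).trans_lt hCs, h2⟩
  by_cases h0 : p 0 = 0
  · obtain ⟨δ, hδ, h1⟩ := near_chart n K
    have h2 : ∀ᶠ q in l, ∃ k ∈ (Finset.range (n + 1) : Set ℕ), ∃ w, (Om k w ∧
        Psi w ∈ hull (UU n) K) ∧ Psi w = q ∧ 1 / 2 ≤ ‖iy w‖ ∧ ‖iy w‖ ≤ 2 := by
      filter_upwards [hl, hp0.norm.eventually (gt_mem_nhds (show ‖p 0‖ < δ by simpa [h0]))]
        with q a b
      obtain ⟨k, hk, w, c, d, e⟩ := h1 q a b
      exact ⟨k, hk, w, ⟨c, d ▸ a⟩, d, e⟩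
    obtain ⟨k, hk, h3⟩ := (Ultrafilter.eventually_exists_mem_iff (Finset.finite_toSet _)).1 h2
    have hk' : k ≤ n := by simpa [Nat.lt_succ_iff] using hk
    obtain ⟨ω, hω⟩ := h3.choice
    obtain ⟨s, hs1, hs2⟩ := hsl k hk' ω (hω.mono fun q h => h.1)
    have hs0 : s ≠ 0 := by rintro rfl; norm_num at hs1
    obtain ⟨y, -, hy⟩ := ulim l (g := fun q => iy (ω q)) (isCompact_closedBall (0 : ℂ) 2)
      (hω.mono fun q h => mem_closedBall_zero_iff.2 h.2.2.2)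
    have hy0 : y ≠ 0 := by
      have := ge_of_tendsto hy.norm (hω.mono fun q h => h.2.2.1)
      exact norm_pos_iff.1 (by linarith)
    have hr0 := r_ne
    have hu : Tendsto (fun q => ω q 1) l (𝓝 (s / (r ^ k * y))) := by
      refine (hs2.div (hy.const_mul (r ^ k)) (by positivity)).congr' ?_
      filter_upwards [hω] with q h
      have := h.1.1.l_ne
      have := h.1.1.m_ne
      have := h.1.1.x_ne
      simp only [Pi.div_apply, iy]
      field_simp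
    have hP : Tendsto (fun q => Psi (ω q)) l (𝓝 p) :=
      Tendsto.congr' (hω.mono fun q h => h.2.1.symm) hp
    obtain ⟨a, ha, h4⟩ := lim (hω.mono fun q h => h.1.1) hP hu (by positivity) hs2 hs1 ht hr
    obtain ⟨w, h5, h6⟩ := h4 (by
      rintro rfl
      exact lam_ne hk' (hω.mono fun q h => h.1) (hω.mono fun q h => h.2.2.1) hy0
        (h0 ▸ tendsto_pi_nhds.1 hP 0) hy hu ha)
    exact ⟨k, hk', w, h5, h6⟩
  · have h2 : ∀ᶠ q in l, ∃ w, (Om 0 w ∧ Psi w ∈ hull (UU n) K) ∧ Psi w = q := by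
      filter_upwards [hl, hp0.eventually_ne h0] with q a b
      obtain ⟨k, -, w, c, rfl⟩ := a.1
      have e := Psi_sh c.t_lt_one b c.x_ne k
      exact ⟨sh k w, ⟨c.sh b, e ▸ a⟩, e⟩
    obtain ⟨ω, hω⟩ := h2.choice
    obtain ⟨s, hs1, hs2⟩ := hsl 0 (Nat.zero_le n) ω (hω.mono fun q h => h.1)
    have hP : Tendsto (fun q => Psi (ω q)) l (𝓝 p) :=
      Tendsto.congr' (hω.mono fun q h => h.2.symm) hp
    have hT : Tendsto (fun q => ω q 0) l (𝓝 (p 0)) := tendsto_pi_nhds.1 hP 0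
    obtain ⟨C1, -, b1⟩ := bdd_x n K
    obtain ⟨C2, -, b2⟩ := bdd_ix n K
    obtain ⟨C3, -, b3⟩ := bdd_il n K
    obtain ⟨u, -, hu⟩ := ulim l (g := fun q => ω q 1) (isCompact_closedBall (0 : ℂ) C1)
      (hω.mono fun q h => mem_closedBall_zero_iff.2 (by
        simpa using b1 0 (Nat.zero_le n) _ h.1.1 h.1.2))
    have hu0 : u ≠ 0 := ne_of_bound (hT.pow (n - 0)) hu (pow_ne_zero _ h0)
      (hω.mono fun q h => ⟨h.1.1.x_ne, b2 0 (Nat.zero_le n) _ h.1.1 h.1.2⟩)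
    obtain ⟨a, ha, h4⟩ := lim (hω.mono fun q h => h.1.1) hP hu hu0 hs2 hs1 ht hr
    obtain ⟨w, h5, h6⟩ := h4 (ne_of_bound (C := C3) (hT.pow (ee n - ee 0)) ha (pow_ne_zero _ h0)
      (hω.mono fun q h => ⟨h.1.1.l_ne, by
        have := b3 0 (Nat.zero_le n) _ h.1.1 h.1.2
        simpa only [mul_zero, pow_zero, mul_one] using this⟩))
    exact ⟨0, Nat.zero_le n, w, h5, h6⟩

end Pool.Agent.P.MP_0cf9ad_an
end

-- part Pool.Agent.P.MP_0cf9ad_an.Disc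
section

/-!
The union is not holomorphically convex.
-/

set_option autoImplicit false

open Metric Filter Topology Set

namespace Pool.Agent.P.MP_0cf9ad_an

noncomputable def bb (z : ℂ) : ℂ := 1 + z / 2
noncomputable def tt (z : ℂ) : ℂ := r * z / bb z
noncomputable def du (k : ℕ) (z : ℂ) : ℂ := (bb z / r) ^ k
noncomputable def dl (k : ℕ) (z : ℂ) : ℂ := (bb z / r) ^ ee k / du k z ^ (2 * k)
noncomputable def d0 (k : ℕ) (z : ℂ) : Par := ![tt z, du k z, dl k z, dl k z / r ^ k, 0]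
noncomputable def de (k : ℕ) (z : ℂ) : ℂ :=
  (1 - r) * dl k z ^ 2 * du k z / r ^ k * (bb z / (2 * r) * ∑ i ∈ Finset.range k, bb z ^ i) +
    RR (d0 k z)
/-- the discs -/
noncomputable def dd (k : ℕ) (z : ℂ) : Par := ![tt z, du k z, dl k z, dl k z / r ^ k, de k z]

theorem RR_congr {w v : Par} (h0 : w 0 = v 0) (h1 : w 1 = v 1) (h2 : w 2 = v 2) (h3 : w 3 = v 3) :
    RR w = RR v := by
  simp only [RR, h0, h1, h2, h3]

theorem hh_congr {w v : Par} (h0 : w 0 = v 0) (h1 : w 1 = v 1) (h2 : w 2 = v 2) (h3 : w 3 = v 3) :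
    hh (Psi w) = hh (Psi v) := by
  simp only [hh, Psi1, Psi2, Psi3, Psi4, h0, h1, h2, h3]

theorem bb_ge {z : ℂ} (hz : ‖z‖ < 3 / 2) : 1 / 4 ≤ ‖bb z‖ := by
  have h := abs_norm_sub_norm_le (bb z) 1
  rw [abs_le, norm_one, show bb z - 1 = z / 2 by rw [bb]; ring, norm_div] at h
  norm_num at h
  linarith [h.1]

theorem bb_ne {z : ℂ} (hz : ‖z‖ < 3 / 2) : bb z ≠ 0 := norm_pos_iff.1 (by linarith [bb_ge hz])

theorem tt_lt {z : ℂ} (hz : ‖z‖ < 3 / 2) : ‖tt z‖ < 1 / 100 := by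
  have := bb_ge hz
  rw [tt, norm_div, norm_mul, norm_r, div_lt_iff₀ (by linarith)]
  linarith

theorem tt_ne {z : ℂ} (hz : ‖z‖ < 3 / 2) : tt z ≠ r := by
  intro h
  rw [tt, div_eq_iff (bb_ne hz), mul_right_inj' r_ne, bb] at h
  have : z = 2 := by linear_combination 2 * h
  rw [this] at hz
  norm_num at hz

theorem du_ne {z : ℂ} (hz : ‖z‖ < 3 / 2) (k : ℕ) : du k z ≠ 0 :=
  pow_ne_zero _ (div_ne_zero (bb_ne hz) r_ne)

theorem dl_ne {z : ℂ} (hz : ‖z‖ < 3 / 2) (k : ℕ) : dl k z ≠ 0 :=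
  div_ne_zero (pow_ne_zero _ (div_ne_zero (bb_ne hz) r_ne)) (pow_ne_zero _ (du_ne hz k))

theorem Om_dd {z : ℂ} (hz : ‖z‖ < 3 / 2) (k : ℕ) : Om k (dd k z) := by
  have h1 := dl_ne hz k
  have h2 := r_ne
  have h3 := bb_ne hz
  refine ⟨tt_lt hz, tt_ne hz, du_ne hz k, h1, ?_, ?_⟩
  · change ‖r ^ k * (dl k z / r ^ k) / dl k z - 1‖ < 1 / 2
    rw [show r ^ k * (dl k z / r ^ k) / dl k z = 1 by field_simp]
    norm_num
  · rw [hh_Psi (lt_trans (tt_lt hz) (by norm_num)),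
      RR_congr (w := dd k z) (v := d0 k z) rfl rfl rfl rfl]
    change tt z * de k z = (1 - r) * dl k z * du k z * (dl k z * du k z - dl k z / r ^ k) +
      tt z * RR (d0 k z)
    have h4 := geom_sum_mul (bb z) k
    have h5 : tt z * (bb z / (2 * r)) = bb z - 1 := by
      rw [tt]; field_simp; rw [bb]; ring
    have h6 : du k z = bb z ^ k / r ^ k := div_pow _ _ _
    rw [de]
    linear_combination ((1 - r) * dl k z ^ 2 * du k z / r ^ k *
      ∑ i ∈ Finset.range k, bb z ^ i) * h5 + ((1 - r) * dl k z ^ 2 * du k z / r ^ k) * h4 -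
      ((1 - r) * dl k z ^ 2 * du k z) * h6

theorem cd_tt {z : ℂ} (hz : ‖z‖ < 3 / 2) : ContDiffAt ℂ 1 tt z :=
  ContDiffAt.div (by fun_prop) (by unfold bb; fun_prop) (bb_ne hz)

theorem cd_dd {z : ℂ} (hz : ‖z‖ < 3 / 2) (k : ℕ) : ContDiffAt ℂ 1 (dd k) z := by
  have h0 : ContDiffAt ℂ 1 bb z := by unfold bb; fun_prop
  have h1 := cd_tt hz
  have h2 : ContDiffAt ℂ 1 (du k) z := by unfold du; fun_prop
  have h3 : ContDiffAt ℂ 1 (dl k) z :=
    ContDiffAt.div (by fun_prop) (h2.pow _) (pow_ne_zero _ (du_ne hz k))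
  have h4 : ContDiffAt ℂ 1 (fun y => dl k y / r ^ k) z := h3.div_const _
  have h5 : ContDiffAt ℂ 1 (fun y => RR (d0 k y)) z :=
    cd_RR (g := d0 k) h1 h2 h3 h4 (lt_trans (tt_lt hz) (by norm_num)) (du_ne hz k)
  have h6 : ContDiffAt ℂ 1 (de k) z := by unfold de; fun_prop
  rw [contDiffAt_pi]
  intro i
  fin_cases i
  exacts [h1, h2, h3, h4, h6]

noncomputable def k0 (x : ℂ × ℂ × ℂ) : Par := ![tt x.1, x.2.1, x.2.2, x.2.2, 0]
noncomputable def k1 (x : ℂ × ℂ × ℂ) : Par :=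
  ![tt x.1, x.2.1, x.2.2, x.2.2, hh (Psi (k0 x)) / tt x.1]

def T3 : Set (ℂ × ℂ × ℂ) := sphere 0 1 ×ˢ sphere 0 1 ×ˢ sphere 0 1

theorem T3_norm {x : ℂ × ℂ × ℂ} (h : x ∈ T3) : ‖x.1‖ = 1 ∧ ‖x.2.1‖ = 1 ∧ ‖x.2.2‖ = 1 := by
  simpa [T3] using h

theorem tt_ne_zero {z : ℂ} (h : ‖z‖ = 1) : tt z ≠ 0 :=
  div_ne_zero (mul_ne_zero r_ne (norm_pos_iff.1 (by linarith))) (bb_ne (by linarith))

theorem Om_k1 {x : ℂ × ℂ × ℂ} (h : x ∈ T3) : Om 0 (k1 x) := by
  obtain ⟨h1, h2, h3⟩ := T3_norm h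
  have h4 : x.2.2 ≠ 0 := norm_pos_iff.1 (by linarith)
  refine ⟨tt_lt (by linarith), tt_ne (by linarith), norm_pos_iff.1 (by change 0 < ‖x.2.1‖; linarith),
    h4, ?_, ?_⟩
  · change ‖r ^ 0 * x.2.2 / x.2.2 - 1‖ < 1 / 2
    simp [h4]
  · rw [hh_congr (w := k1 x) (v := k0 x) rfl rfl rfl rfl]
    exact mul_div_cancel₀ _ (tt_ne_zero h1)

theorem cd_k1 {x : ℂ × ℂ × ℂ} (h : x ∈ T3) : ContDiffAt ℂ 1 (fun y => Psi (k1 y)) x := by
  obtain ⟨h1, h2, h3⟩ := T3_norm h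
  have a1 : ContDiffAt ℂ 1 (fun y : ℂ × ℂ × ℂ => tt y.1) x :=
    ContDiffAt.comp (g := tt) x (cd_tt (by linarith)) contDiffAt_fst
  have a2 : ContDiffAt ℂ 1 (fun y : ℂ × ℂ × ℂ => y.2.1) x := by fun_prop
  have a3 : ContDiffAt ℂ 1 (fun y : ℂ × ℂ × ℂ => y.2.2) x := by fun_prop
  have a4 : ContDiffAt ℂ 1 k0 x := by
    rw [contDiffAt_pi]
    intro i
    fin_cases i
    exacts [a1, a2, a3, a3, contDiffAt_const]
  have a5 : ContDiffAt ℂ 1 (fun y => hh (Psi (k0 y))) x :=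
    ContDiffAt.comp (g := hh) x (cd_hh _) (cd_Psi a4 (Om_k1 h).t_lt_one (Om_k1 h).x_ne)
  refine cd_Psi ?_ (Om_k1 h).t_lt_one (Om_k1 h).x_ne
  rw [contDiffAt_pi]
  intro i
  fin_cases i
  exacts [a1, a2, a3, a3, a5.div a1 (tt_ne_zero h1)]

/-- the compact set carrying the boundaries of all discs -/
def KK : Set Amb := (fun y => Psi (k1 y)) '' T3

theorem KK_compact : IsCompact KK :=
  ((isCompact_sphere _ _).prod ((isCompact_sphere _ _).prod
    (isCompact_sphere _ _))).image_of_continuousOn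
    fun _ h => (cd_k1 h).continuousAt.continuousWithinAt

theorem KK_sub : KK ⊆ ⋃ n, UU n := by
  rintro _ ⟨x, h, rfl⟩
  exact mem_iUnion.2 ⟨0, 0, le_rfl, _, Om_k1 h, rfl⟩

theorem bdry_mem {z : ℂ} (hz : ‖z‖ = 1) (k : ℕ) : Psi (dd k z) ∈ KK := by
  have h := Om_dd (z := z) (by linarith) k
  have h0 := tt_ne_zero hz
  have h1 := bb_ne (z := z) (by linarith)
  have h2 := du_ne (z := z) (by linarith) k
  have h3 := r_ne
  have e := Psi_sh h.t_lt_one h0 h.x_ne k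
  have h4 : tt z * (bb z / r) = z := by rw [tt]; field_simp
  have e1 : sh k (dd k z) 1 = z ^ k := by
    change tt z ^ k * (bb z / r) ^ k = _
    rw [← mul_pow, h4]
  have e2 : dl k z * (tt z ^ ee k * du k z ^ (2 * k)) = z ^ ee k := by
    have h5 : tt z ^ ee k * (bb z / r) ^ ee k = z ^ ee k := by rw [← mul_pow, h4]
    rw [dl, ← h5]
    field_simp
  have e3 : sh k (dd k z) 3 = z ^ ee k := by
    change dl k z / r ^ k * (r ^ k * (tt z ^ ee k * du k z ^ (2 * k))) = _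
    rw [← e2]; field_simp
  refine ⟨(z, z ^ k, z ^ ee k), by simp [T3, hz], ?_⟩
  rw [← e]
  have e4 : hh (Psi (k0 (z, z ^ k, z ^ ee k))) = hh (Psi (sh k (dd k z))) :=
    hh_congr rfl e1.symm e2.symm e3.symm
  refine congrArg Psi (par_ext rfl e1.symm e2.symm e3.symm ?_)
  change hh (Psi (k0 (z, z ^ k, z ^ ee k))) / tt z = de k z
  rw [e4, ← (h.sh h0).eq]
  exact mul_div_cancel_left₀ _ h0

theorem centre_mem (k : ℕ) : Psi (dd k 0) ∈ hull (⋃ n, UU n) KK := by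
  have hU : ∀ z : ℂ, ‖z‖ < 3 / 2 → Psi (dd k z) ∈ ⋃ n, UU n := fun z hz =>
    mem_iUnion.2 ⟨k, k, le_rfl, _, Om_dd hz k, rfl⟩
  refine ⟨hU 0 (by norm_num), fun f hf => ?_⟩
  have hd : ∀ z ∈ closedBall (0 : ℂ) 1, DifferentiableAt ℂ (fun w => f (Psi (dd k w))) z := by
    intro z hz
    have h1 : ‖z‖ < 3 / 2 := by linarith [mem_closedBall_zero_iff.1 hz]
    refine hf.comp_diff ((cd_Psi (cd_dd h1 k) (Om_dd h1 k).t_lt_one
      (Om_dd h1 k).x_ne).differentiableAt one_ne_zero) ?_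
    exact (continuous_norm.continuousAt.eventually (gt_mem_nhds h1)).mono hU
  refine Complex.norm_le_of_forall_mem_frontier_norm_le (U := ball (0 : ℂ) 1)
    (f := fun w => f (Psi (dd k w))) isBounded_ball
    (DifferentiableOn.diffContOnCl (by
      rw [closure_ball _ one_ne_zero]
      exact fun z hz => (hd z hz).differentiableWithinAt)) (fun z hz => ?_)
    (subset_closure (mem_ball_self one_pos))
  rw [frontier_ball _ one_ne_zero, mem_sphere_zero_iff_norm] at hz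
  exact le_sSup_of_mem KK_sub KK_compact hf (bdry_mem hz k)

theorem centre_le (k : ℕ) :
    ‖Psi (dd k 0) 1‖ + ‖Psi (dd k 0) 2‖ ≤ 3 * (1 / 1000) ^ ee k := by
  have h0 : ‖(0 : ℂ)‖ < 1 := by simp
  have e1 : Psi (dd k 0) 1 = dl k 0 * du k 0 := by
    change dl k 0 * Qv 1 (tt 0) (du k 0) = _
    simp [tt, Qv, QQ_eq h0]
  have e2 : Psi (dd k 0) 2 = dl k 0 * (1 + du k 0 ^ 2) := by
    change dl k 0 * Pv 1 (tt 0) (du k 0) = _
    simp [tt, Pv, PP_eq h0]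
  have n0 : ‖bb 0 / r‖ = 1000 := by simp [bb, norm_r]
  have n1 : ‖du k 0‖ = 1000 ^ k := by rw [du, norm_pow, n0]
  have n2 : ‖dl k 0‖ * ‖du k 0‖ ^ 2 = (1 / 1000) ^ ee k := by
    rw [dl, norm_div, norm_pow, norm_pow, n0, n1, ← pow_mul, ← pow_mul,
      show k * (2 * k) = ee k + ee k + k * 2 by
        unfold ee
        rcases k with _ | k
        · simp
        · simp only [Nat.add_sub_cancel]; ring,
      pow_add, pow_add, one_div, inv_pow]
    field_simp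
  have n3 : 1 ≤ ‖du k 0‖ := by rw [n1]; exact one_le_pow₀ (by norm_num)
  have n4 : ‖1 + du k 0 ^ 2‖ ≤ 1 + ‖du k 0‖ ^ 2 := by
    have := norm_add_le 1 (du k 0 ^ 2)
    rwa [norm_one, norm_pow] at this
  rw [e1, e2, norm_mul, norm_mul, ← n2]
  have n5 := norm_nonneg (dl k 0)
  have n6 : ‖du k 0‖ + ‖1 + du k 0 ^ 2‖ ≤ 3 * ‖du k 0‖ ^ 2 := by nlinarith
  nlinarith

theorem union_not_stein : ¬ IsStein (⋃ n, UU n) := by
  intro h
  have hc := h.1 KK KK_sub KK_compact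
  obtain ⟨p, hp, hmin⟩ := hc.exists_isMinOn ⟨_, centre_mem 0⟩
    (f := fun q : Amb => ‖q 1‖ + ‖q 2‖) (by fun_prop)
  have hpos : 0 < ‖p 1‖ + ‖p 2‖ := by
    obtain ⟨n, k, -, w, hw, rfl⟩ := mem_iUnion.1 hp.1
    rcases vec_ne hw.t_lt (Or.inl rfl) hw.x_ne with h1 | h1
    · exact add_pos_of_pos_of_nonneg (norm_pos_iff.2 (mul_ne_zero hw.l_ne h1)) (norm_nonneg _)
    · exact add_pos_of_nonneg_of_pos (norm_nonneg _) (norm_pos_iff.2 (mul_ne_zero hw.l_ne h1))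
  obtain ⟨j, hj⟩ := exists_pow_lt_of_lt_one (show 0 < (‖p 1‖ + ‖p 2‖) / 3 by positivity)
    (show (1 / 1000 : ℝ) < 1 by norm_num)
  have h1 : ‖p 1‖ + ‖p 2‖ ≤ _ := hmin (centre_mem (j + 1))
  have h2 := centre_le (j + 1)
  have h3 : (1 / 1000 : ℝ) ^ ee (j + 1) ≤ (1 / 1000) ^ j :=
    pow_le_pow_of_le_one (by norm_num) (by norm_num) (by
      unfold ee; simp only [Nat.add_sub_cancel]; nlinarith)
  linarith

end Pool.Agent.P.MP_0cf9ad_an
end
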